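import Mathlib

/-!
Definitions for the Tor-rigidity question: local complete intersections, modules that are locally
free of constant rank on the punctured spectrum, the reduced Grothendieck group with rational
coefficients, and Tor-rigid pairs.
-/

universe u

open CategoryTheory Limits TensorProduct

namespace Pool.Agent.Lib.MP_7385e8_ag

/-- A Noetherian local ring `R` is a complete intersection if its completion is isomorphic to
`S / (f₁, …, f_c)` with `S` a regular local ring and `f₁, …, f_c` an `S`-regular sequence. -/
structure IsLocalCompleteIntersection (R : Type u) [CommRing R] [IsLocalRing R] : Prop where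
  isNoetherianRing : IsNoetherianRing R
  exists_presentation : ∃ (S : Type u) (_ : CommRing S) (_ : IsRegularLocalRing S) (fs : List S),
    RingTheory.Sequence.IsRegular S fs ∧
      Nonempty (AdicCompletion (IsLocalRing.maximalIdeal R) R ≃+* S ⧸ Ideal.ofList fs)

/-- `M` is locally free of constant rank on the punctured spectrum of the local ring `R`. -/
def IsLocallyFreeOnPuncturedSpectrum (R : Type u) [CommRing R] [IsLocalRing R] (M : Type u)
    [AddCommGroup M] [Module R M] : Prop :=
  ∃ r : ℕ, ∀ (p : Ideal R) [p.IsPrime], p ≠ IsLocalRing.maximalIdeal R →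
    Nonempty (LocalizedModule p.primeCompl M ≃ₗ[Localization.AtPrime p]
      (Fin r → Localization.AtPrime p))

/-- The finitely generated `R`-modules. -/
abbrev FGMod (R : Type u) [CommRing R] : Type (u + 1) :=
  {M : ModuleCat.{u} R // Module.Finite R M}

/-- The relations `[B] - [A] - [C]` for the short exact sequences `0 → A → B → C → 0` of finitely
generated `R`-modules. -/
def exactRelations (R : Type u) [CommRing R] : Set (FreeAbelianGroup (FGMod R)) :=
  {x | ∃ (A B C : FGMod R) (f : A.1 →ₗ[R] B.1) (g : B.1 →ₗ[R] C.1),
    Function.Injective f ∧ Function.Exact f g ∧ Function.Surjective g ∧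
      x = FreeAbelianGroup.of B - FreeAbelianGroup.of A - FreeAbelianGroup.of C}

/-- The Grothendieck group `G(R)` of finitely generated `R`-modules. -/
abbrev GrothendieckGroup (R : Type u) [CommRing R] : Type (u + 1) :=
  FreeAbelianGroup (FGMod R) ⧸ AddSubgroup.closure (exactRelations R)

/-- The class `[N]` in `G(R)`. -/
def classG (R : Type u) [CommRing R] (N : Type u) [AddCommGroup N] [Module R N]
    [hN : Module.Finite R N] : GrothendieckGroup R :=
  QuotientAddGroup.mk (FreeAbelianGroup.of (⟨ModuleCat.of R N, hN⟩ : FGMod R))

/-- The reduced Grothendieck group `G(R) / ℤ [R]`. -/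
abbrev ReducedGrothendieckGroup (R : Type u) [CommRing R] : Type (u + 1) :=
  GrothendieckGroup R ⧸ AddSubgroup.zmultiples (classG R R)

/-- The class of `N` in the reduced Grothendieck group tensored with `ℚ`. -/
noncomputable def reducedClassQ (R : Type u) [CommRing R] (N : Type u) [AddCommGroup N]
    [Module R N] [Module.Finite R N] : ℚ ⊗[ℤ] ReducedGrothendieckGroup R :=
  (1 : ℚ) ⊗ₜ[ℤ] (QuotientAddGroup.mk (classG R N) : ReducedGrothendieckGroup R)

/-- The class of `N` vanishes in the reduced Grothendieck group tensored with `ℚ`. -/
def ReducedClassVanishes (R : Type u) [CommRing R] (N : Type u) [AddCommGroup N]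
    [Module R N] [Module.Finite R N] : Prop :=
  reducedClassQ R N = 0

/-- `Tor_i^R(M, N) = 0`. -/
def TorVanishes (R : Type u) [CommRing R] (M N : Type u) [AddCommGroup M] [Module R M]
    [AddCommGroup N] [Module R N] (i : ℕ) : Prop :=
  IsZero (((Tor (ModuleCat.{u} R) i).obj (ModuleCat.of R M)).obj (ModuleCat.of R N))

/-- The pair `(M, N)` is Tor-rigid. -/
def TorRigid (R : Type u) [CommRing R] (M N : Type u) [AddCommGroup M] [Module R M]
    [AddCommGroup N] [Module R N] : Prop :=
  ∀ i : ℕ, 0 < i → TorVanishes R M N i → ∀ j : ℕ, i ≤ j → TorVanishes R M N j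

end Pool.Agent.Lib.MP_7385e8_ag
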