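import Mathlib

/-!
Dimension shifting for left derived functors, in an abelian category with enough projectives.
-/

open CategoryTheory Limits

universe v u v' u'

namespace Pool.Agent.Lib.MP_7385e8_ag

variable {C : Type u} [Category.{v} C] [Abelian C]
variable {D : Type u'} [Category.{v'} D] [Abelian D]

/-- The augmentation of a projective resolution, as a map to the resolved object. -/
noncomputable def aug {X : C} (Q : ProjectiveResolution X) : Q.complex.X 0 ⟶ X := Q.π.f 0

lemma d_aug {X : C} (Q : ProjectiveResolution X) : Q.complex.d 1 0 ≫ aug Q = 0 :=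
  Q.complex_d_comp_π_f_zero

instance epi_aug {X : C} (Q : ProjectiveResolution X) : Epi (aug Q) :=
  inferInstanceAs (Epi (Q.π.f 0))

lemma aug_exact {X : C} (Q : ProjectiveResolution X) :
    (ShortComplex.mk (Q.complex.d 1 0) (aug Q) (d_aug Q)).Exact :=
  Q.exact₀

/-- Splicing a projective resolution of `K` with a short exact sequence `0 → K → P → X → 0`
with `P` projective: the complex. -/
noncomputable def spliceComplex (S : ShortComplex C) (Q : ProjectiveResolution S.X₁) :
    ChainComplex C ℕ :=
  ChainComplex.augment Q.complex (aug Q ≫ S.f)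
    (by rw [← Category.assoc, d_aug, zero_comp])

lemma spliceComplex_exact_zero (S : ShortComplex C) (hS : S.ShortExact)
    (Q : ProjectiveResolution S.X₁) :
    (ShortComplex.mk (aug Q ≫ S.f) S.g (by rw [Category.assoc, S.zero, comp_zero])).Exact := by
  let α : ShortComplex.mk (aug Q ≫ S.f) S.g (by rw [Category.assoc, S.zero, comp_zero]) ⟶ S :=
    { τ₁ := aug Q
      τ₂ := 𝟙 _
      τ₃ := 𝟙 _ }
  have : Epi α.τ₁ := inferInstanceAs (Epi (aug Q))
  have : IsIso α.τ₂ := inferInstanceAs (IsIso (𝟙 _))
  have : Mono α.τ₃ := inferInstanceAs (Mono (𝟙 _))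
  rw [ShortComplex.exact_iff_of_epi_of_isIso_of_mono α]
  exact hS.exact

lemma spliceComplex_exact_one (S : ShortComplex C) (hS : S.ShortExact)
    (Q : ProjectiveResolution S.X₁) :
    (ShortComplex.mk (Q.complex.d 1 0) (aug Q ≫ S.f)
      (by rw [← Category.assoc, d_aug, zero_comp])).Exact := by
  let α : ShortComplex.mk (Q.complex.d 1 0) (aug Q) (d_aug Q) ⟶
      ShortComplex.mk (Q.complex.d 1 0) (aug Q ≫ S.f)
      (by rw [← Category.assoc, d_aug, zero_comp]) :=
    { τ₁ := 𝟙 _
      τ₂ := 𝟙 _
      τ₃ := S.f }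
  have : Epi α.τ₁ := inferInstanceAs (Epi (𝟙 _))
  have : IsIso α.τ₂ := inferInstanceAs (IsIso (𝟙 _))
  have : Mono α.τ₃ := hS.mono_f
  rw [← ShortComplex.exact_iff_of_epi_of_isIso_of_mono α]
  exact aug_exact Q

lemma spliceComplex_exactAt (S : ShortComplex C) (hS : S.ShortExact)
    (Q : ProjectiveResolution S.X₁) (n : ℕ) : (spliceComplex S Q).ExactAt (n + 1) := by
  rw [HomologicalComplex.exactAt_iff' _ (n + 1 + 1) (n + 1) n (by simp) (by simp)]
  match n with
  | 0 => exact spliceComplex_exact_one S hS Q
  | n + 1 => exact Q.exact_succ n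

/-- The augmentation of the spliced complex. -/
noncomputable def spliceAug (S : ShortComplex C) (Q : ProjectiveResolution S.X₁) :
    (spliceComplex S Q).X 0 ⟶ S.X₃ := S.g

lemma splice_d_aug (S : ShortComplex C) (Q : ProjectiveResolution S.X₁) :
    (spliceComplex S Q).d 1 0 ≫ spliceAug S Q = 0 := by
  change (aug Q ≫ S.f) ≫ S.g = 0
  rw [Category.assoc, S.zero, comp_zero]

lemma splice_exact_zero' (S : ShortComplex C) (hS : S.ShortExact)
    (Q : ProjectiveResolution S.X₁) :
    (ShortComplex.mk ((spliceComplex S Q).d 1 0) (spliceAug S Q) (splice_d_aug S Q)).Exact :=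
  spliceComplex_exact_zero S hS Q

lemma splice_epi_aug (S : ShortComplex C) (hS : S.ShortExact)
    (Q : ProjectiveResolution S.X₁) : Epi (spliceAug S Q) := hS.epi_g

lemma splice_symm_f_zero (S : ShortComplex C) (Q : ProjectiveResolution S.X₁) :
    ((ChainComplex.toSingle₀Equiv (spliceComplex S Q) S.X₃).symm
      ⟨spliceAug S Q, splice_d_aug S Q⟩).f 0 = spliceAug S Q :=
  ChainComplex.toSingle₀Equiv_symm_apply_f_zero _ _

/-- Splicing a projective resolution of `K` with a short exact sequence `0 → K → P → X → 0`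
with `P` projective. -/
noncomputable def splice (S : ShortComplex C) (hS : S.ShortExact) (hP : Projective S.X₂)
    (Q : ProjectiveResolution S.X₁) : ProjectiveResolution S.X₃ where
  complex := spliceComplex S Q
  projective := fun n => by
    cases n with
    | zero => exact hP
    | succ n => exact Q.projective n
  π := (ChainComplex.toSingle₀Equiv _ _).symm ⟨spliceAug S Q, splice_d_aug S Q⟩
  quasiIso := ⟨fun n => by
    cases n
    · rw [ChainComplex.quasiIsoAt₀_iff, ShortComplex.quasiIso_iff_of_zeros']
      · refine (ShortComplex.exact_and_epi_g_iff_of_iso ?_).2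
          ⟨splice_exact_zero' S hS Q, splice_epi_aug S hS Q⟩
        exact ShortComplex.isoMk (Iso.refl _) (Iso.refl _) (Iso.refl _)
          ((Category.id_comp _).trans (Category.comp_id _).symm)
          ((Category.id_comp _).trans
            ((splice_symm_f_zero S Q).symm.trans (Category.comp_id _).symm))
      all_goals rfl
    · rw [quasiIsoAt_iff_exactAt']
      · apply spliceComplex_exactAt S hS Q
      · apply ChainComplex.exactAt_succ_single_obj⟩

section derived

variable [HasProjectiveResolutions C]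

lemma isZero_leftDerived_succ_iff (F : C ⥤ D) [F.Additive] {X : C}
    (P : ProjectiveResolution X) (n : ℕ) :
    IsZero ((F.leftDerived (n + 1)).obj X) ↔
      (ShortComplex.mk (F.map (P.complex.d (n + 2) (n + 1))) (F.map (P.complex.d (n + 1) n))
        (by rw [← F.map_comp, P.complex.d_comp_d, F.map_zero])).Exact := by
  rw [(P.isoLeftDerivedObj F (n + 1)).isZero_iff]
  change IsZero (((F.mapHomologicalComplex _).obj P.complex).homology (n + 1)) ↔ _
  rw [← HomologicalComplex.exactAt_iff_isZero_homology,
    HomologicalComplex.exactAt_iff' _ (n + 2) (n + 1) n (by simp) (by simp)]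
  rfl

lemma mono_of_exact_comp {A B E G : D} (a : A ⟶ B) (e : B ⟶ E) (f : E ⟶ G) [Epi e]
    (w : a ≫ e = 0) (w' : a ≫ e ≫ f = 0)
    (h : (ShortComplex.mk a (e ≫ f) w').Exact) : Mono f := by
  rw [Preadditive.mono_iff_cancel_zero]
  intro Z z hz
  obtain ⟨Z', π, hπ, z', hz'⟩ := surjective_up_to_refinements_of_epi e z
  rw [ShortComplex.exact_iff_exact_up_to_refinements] at h
  have h0 : z' ≫ (e ≫ f) = 0 := by
    rw [← Category.assoc, ← hz', Category.assoc, hz, comp_zero]
  obtain ⟨Z'', π', hπ', y, hy⟩ := h z' h0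
  have hy' : π' ≫ z' = y ≫ a := hy
  have : (π' ≫ π) ≫ z = 0 := by
    rw [Category.assoc, hz', ← Category.assoc, hy', Category.assoc, w, comp_zero]
  have hepi : Epi (π' ≫ π) := inferInstance
  exact (cancel_epi (π' ≫ π)).1 (by rw [this, comp_zero])

/-- Dimension shifting in degree one. -/
lemma isZero_leftDerived_one_iff (F : C ⥤ D) [F.Additive] [PreservesFiniteColimits F]
    (S : ShortComplex C) (hS : S.ShortExact) (hP : Projective S.X₂) :
    IsZero ((F.leftDerived 1).obj S.X₃) ↔ Mono (F.map S.f) := by
  have Q : ProjectiveResolution S.X₁ := HasProjectiveResolution.out.some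
  rw [isZero_leftDerived_succ_iff F (splice S hS hP Q) 0]
  have hex : (ShortComplex.mk (F.map (Q.complex.d 1 0)) (F.map (aug Q))
      (by rw [← F.map_comp, d_aug, F.map_zero])).Exact :=
    (aug_exact Q).map_of_epi_of_preservesCokernel F (epi_aug Q) inferInstance
  have w : F.map (Q.complex.d 1 0) ≫ F.map (aug Q) = 0 := by
    rw [← F.map_comp, d_aug, F.map_zero]
  have hepi : Epi (F.map (aug Q)) := inferInstance
  have w' : F.map (Q.complex.d 1 0) ≫ F.map (aug Q) ≫ F.map S.f = 0 := by
    rw [← Category.assoc, w, zero_comp]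
  have key : (ShortComplex.mk (F.map (Q.complex.d 1 0)) (F.map (aug Q ≫ S.f))
      (by rw [F.map_comp]; exact w')).Exact ↔
      (ShortComplex.mk (F.map (Q.complex.d 1 0)) (F.map (aug Q) ≫ F.map S.f) w').Exact := by
    constructor
    · intro h
      convert h using 2
      rw [F.map_comp]
    · intro h
      convert h using 2
      rw [F.map_comp]
  refine Iff.trans key ?_
  constructor
  · intro h
    exact mono_of_exact_comp _ _ _ w w' h
  · intro h
    let α : ShortComplex.mk (F.map (Q.complex.d 1 0)) (F.map (aug Q)) w ⟶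
        ShortComplex.mk (F.map (Q.complex.d 1 0)) (F.map (aug Q) ≫ F.map S.f) w' :=
      { τ₁ := 𝟙 _
        τ₂ := 𝟙 _
        τ₃ := F.map S.f }
    have : Epi α.τ₁ := inferInstanceAs (Epi (𝟙 _))
    have : IsIso α.τ₂ := inferInstanceAs (IsIso (𝟙 _))
    have : Mono α.τ₃ := h
    rw [← ShortComplex.exact_iff_of_epi_of_isIso_of_mono α]
    exact hex

/-- Dimension shifting in higher degrees. -/
lemma isZero_leftDerived_succ_succ_iff (F : C ⥤ D) [F.Additive]
    (S : ShortComplex C) (hS : S.ShortExact) (hP : Projective S.X₂) (n : ℕ) :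
    IsZero ((F.leftDerived (n + 2)).obj S.X₃) ↔ IsZero ((F.leftDerived (n + 1)).obj S.X₁) := by
  have Q : ProjectiveResolution S.X₁ := HasProjectiveResolution.out.some
  rw [isZero_leftDerived_succ_iff F (splice S hS hP Q) (n + 1),
    isZero_leftDerived_succ_iff F Q n]
  rfl

end derived

end Pool.Agent.Lib.MP_7385e8_ag
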