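import Mathlib
import Pool.Agent.Lib.MP_7385e8_ag.TorTools

/-!
Dimension shifting for `Tor` of modules over a commutative ring.
-/

open CategoryTheory Limits

universe u

namespace Pool.Agent.Lib.MP_7385e8_ag

variable {R : Type u} [CommRing R]

noncomputable instance preservesFiniteColimits_tensoringLeft (M : ModuleCat.{u} R) :
    PreservesFiniteColimits ((MonoidalCategory.tensoringLeft (ModuleCat.{u} R)).obj M) := by
  have : PreservesColimitsOfSize.{0, 0} (MonoidalCategory.tensorLeft M) := inferInstance
  exact inferInstanceAs (PreservesFiniteColimits (MonoidalCategory.tensorLeft M))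

/-- The short complex of module maps `K → P → X`. -/
noncomputable def seq {K P X : Type u} [AddCommGroup K] [AddCommGroup P] [AddCommGroup X]
    [Module R K] [Module R P] [Module R X] (f : K →ₗ[R] P) (g : P →ₗ[R] X)
    (h : Function.Exact f g) : ShortComplex (ModuleCat.{u} R) :=
  ShortComplex.mk (ModuleCat.ofHom f) (ModuleCat.ofHom g) (by
    ext x
    exact h.apply_apply_eq_zero x)

lemma seq_shortExact {K P X : Type u} [AddCommGroup K] [AddCommGroup P] [AddCommGroup X]
    [Module R K] [Module R P] [Module R X] (f : K →ₗ[R] P) (g : P →ₗ[R] X)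
    (h : Function.Exact f g) (hf : Function.Injective f) (hg : Function.Surjective g) :
    (seq f g h).ShortExact where
  exact := by
    rw [ShortComplex.ShortExact.moduleCat_exact_iff_function_exact]
    exact h
  mono_f := (ModuleCat.mono_iff_injective _).2 hf
  epi_g := (ModuleCat.epi_iff_surjective _).2 hg

/-- `Tor_1(M, X) = 0` iff `M ⊗ K → M ⊗ P` is injective, for `0 → K → P → X → 0` exact with
`P` projective. -/
lemma tor_one_isZero_iff (M : ModuleCat.{u} R) {K P X : Type u} [AddCommGroup K]
    [AddCommGroup P] [AddCommGroup X] [Module R K] [Module R P] [Module R X] (f : K →ₗ[R] P)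
    (g : P →ₗ[R] X) (h : Function.Exact f g) (hf : Function.Injective f)
    (hg : Function.Surjective g) [Module.Projective R P] :
    IsZero (((Tor (ModuleCat.{u} R) 1).obj M).obj (ModuleCat.of R X)) ↔
      Function.Injective (LinearMap.lTensor M f) := by
  have hP : Projective (ModuleCat.of R P) := (IsProjective.iff_projective P).1 inferInstance
  have := isZero_leftDerived_one_iff
    ((MonoidalCategory.tensoringLeft (ModuleCat.{u} R)).obj M) (seq f g h)
    (seq_shortExact f g h hf hg) hP
  refine Iff.trans this ?_
  rw [ModuleCat.mono_iff_injective]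
  rfl

/-- `Tor_{n+2}(M, X) = 0` iff `Tor_{n+1}(M, K) = 0`, for `0 → K → P → X → 0` exact with
`P` projective. -/
lemma tor_succ_succ_isZero_iff (M : ModuleCat.{u} R) {K P X : Type u} [AddCommGroup K]
    [AddCommGroup P] [AddCommGroup X] [Module R K] [Module R P] [Module R X] (f : K →ₗ[R] P)
    (g : P →ₗ[R] X) (h : Function.Exact f g) (hf : Function.Injective f)
    (hg : Function.Surjective g) [Module.Projective R P] (n : ℕ) :
    IsZero (((Tor (ModuleCat.{u} R) (n + 2)).obj M).obj (ModuleCat.of R X)) ↔
      IsZero (((Tor (ModuleCat.{u} R) (n + 1)).obj M).obj (ModuleCat.of R K)) := by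
  have hP : Projective (ModuleCat.of R P) := (IsProjective.iff_projective P).1 inferInstance
  exact isZero_leftDerived_succ_succ_iff
    ((MonoidalCategory.tensoringLeft (ModuleCat.{u} R)).obj M) (seq f g h)
    (seq_shortExact f g h hf hg) hP n

end Pool.Agent.Lib.MP_7385e8_ag
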