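import Mathlib
import Pool.Agent.Lib.MP_7385e8_ag.TorMod

/-!
The abstract computation of `Tor_1(M, R/(u,v))` and `Tor_2(M, R/(u,v))`.
-/

open CategoryTheory Limits TensorProduct

universe u

namespace Pool.Agent.Lib.MP_7385e8_ag

/-- The ideal `(u,v)` of `R` has the beginning of its resolution of the expected
(quasi-complete intersection) form, with respect to the relations
`a v = b u` and `c v = d u`. -/
structure GoodRing {R : Type*} [CommRing R] (u v a b c d : R) : Prop where
  rel1 : a * v = b * u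
  rel2 : c * v = d * u
  syz : ∀ r s : R, r * u + s * v = 0 →
    ∃ e α β : R, r = -(v * e) - b * α - d * β ∧ s = u * e + a * α + c * β
  syz2 : ∀ e α β : R, -(v * e) - b * α - d * β = 0 → u * e + a * α + c * β = 0 →
    (∃ p q : R, α = p * u + q * v) ∧ (∃ p q : R, β = p * u + q * v)
  ann : ∀ e : R, e * u = 0 → e * v = 0 → ∃ h : R, e = h * (b * c - a * d)

/-- The properties of the module used in the counterexample. -/
structure GoodModule {R : Type*} [CommRing R] (u v a b c d : R) (M : Type*) [AddCommGroup M]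
    [Module R M] : Prop where
  det : ∀ m : M, (b * c - a * d) • m = 0
  syz : ∀ m₁ m₂ : M, u • m₁ + v • m₂ = 0 →
    ∃ e α β : M, m₁ = -(v • e) - b • α - d • β ∧ m₂ = u • e + a • α + c • β
  soc : ∃ w : M, w ≠ 0 ∧ u • w = 0 ∧ v • w = 0

variable {R : Type u} [CommRing R]

/-- The ideal `(u,v)`. -/
abbrev I2 (u v : R) : Ideal R := Ideal.span {u, v}

lemma u_mem (u v : R) : u ∈ I2 u v := Ideal.subset_span (by simp)
lemma v_mem (u v : R) : v ∈ I2 u v := Ideal.subset_span (by simp)

/-- The surjection `R² → (u,v)`. -/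
def piMap (u v : R) : (R × R) →ₗ[R] I2 u v :=
  LinearMap.codRestrict (I2 u v)
    ((LinearMap.toSpanSingleton R R u).coprod (LinearMap.toSpanSingleton R R v)) (by
      rintro ⟨r, s⟩
      simp only [LinearMap.coprod_apply, LinearMap.toSpanSingleton_apply, smul_eq_mul]
      exact add_mem (Ideal.mul_mem_left _ _ (u_mem u v)) (Ideal.mul_mem_left _ _ (v_mem u v)))

@[simp] lemma piMap_coe (u v r s : R) : ((piMap u v (r, s) : I2 u v) : R) = r * u + s * v := by
  simp [piMap]

lemma piMap_surjective (u v : R) : Function.Surjective (piMap u v) := by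
  rintro ⟨x, hx⟩
  obtain ⟨r, s, h⟩ := Ideal.mem_span_pair.1 hx
  exact ⟨(r, s), Subtype.ext (by simpa using h)⟩

lemma piMap_eq_zero_iff (u v r s : R) : piMap u v (r, s) = 0 ↔ r * u + s * v = 0 := by
  rw [← Subtype.coe_inj, piMap_coe]; rfl

lemma tensor_prod_decomp (M : Type u) [AddCommGroup M] [Module R M] (t : M ⊗[R] (R × R)) :
    ∃ m₁ m₂ : M, t = m₁ ⊗ₜ[R] ((1, 0) : R × R) + m₂ ⊗ₜ[R] ((0, 1) : R × R) := by
  induction t using TensorProduct.induction_on with
  | zero => exact ⟨0, 0, by simp⟩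
  | tmul m x =>
    refine ⟨x.1 • m, x.2 • m, ?_⟩
    rw [TensorProduct.smul_tmul, TensorProduct.smul_tmul, ← TensorProduct.tmul_add]
    congr 1
    ext <;> simp
  | add x y hx hy =>
    obtain ⟨m₁, m₂, rfl⟩ := hx
    obtain ⟨n₁, n₂, rfl⟩ := hy
    refine ⟨m₁ + n₁, m₂ + n₂, ?_⟩
    rw [TensorProduct.add_tmul, TensorProduct.add_tmul]
    abel

/-- `Tor_1(M, R/(u,v)) = 0`. -/
theorem tor_one {u v a b c d : R} (hR : GoodRing u v a b c d) (M : Type u) [AddCommGroup M]
    [Module R M] (hM : GoodModule u v a b c d M) :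
    IsZero (((Tor (ModuleCat.{u} R) 1).obj (ModuleCat.of R M)).obj
      (ModuleCat.of R (R ⧸ I2 u v))) := by
  rw [tor_one_isZero_iff (ModuleCat.of R M) (Submodule.subtype (I2 u v))
    (Submodule.mkQ (I2 u v)) (LinearMap.exact_subtype_mkQ _) (Submodule.injective_subtype _)
    (Submodule.mkQ_surjective _)]
  change Function.Injective (LinearMap.lTensor M (Submodule.subtype (I2 u v)))
  rw [injective_iff_map_eq_zero]
  intro t ht
  obtain ⟨t', rfl⟩ := LinearMap.lTensor_surjective M (piMap_surjective u v) t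
  obtain ⟨m₁, m₂, rfl⟩ := tensor_prod_decomp M t'
  have h1 : u • m₁ + v • m₂ = 0 := by
    have := congrArg (TensorProduct.rid R M) ht
    simpa using this
  obtain ⟨e, α, β, rfl, rfl⟩ := hM.syz m₁ m₂ h1
  set U : I2 u v := piMap u v (1, 0) with hU
  set V : I2 u v := piMap u v (0, 1) with hV
  have e1 : -(v • U) + u • V = 0 := by
    rw [hU, hV, ← map_smul, ← map_smul, ← map_neg, ← map_add, ]
    simp only [Prod.smul_mk, smul_eq_mul, Prod.neg_mk, Prod.mk_add_mk]
    rw [piMap_eq_zero_iff]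
    ring
  have e2 : -(b • U) + a • V = 0 := by
    rw [hU, hV, ← map_smul, ← map_smul, ← map_neg, ← map_add, ]
    simp only [Prod.smul_mk, smul_eq_mul, Prod.neg_mk, Prod.mk_add_mk]
    rw [piMap_eq_zero_iff]
    linear_combination hR.rel1
  have e3 : -(d • U) + c • V = 0 := by
    rw [hU, hV, ← map_smul, ← map_smul, ← map_neg, ← map_add, ]
    simp only [Prod.smul_mk, smul_eq_mul, Prod.neg_mk, Prod.mk_add_mk]
    rw [piMap_eq_zero_iff]
    linear_combination hR.rel2
  rw [map_add, LinearMap.lTensor_tmul, LinearMap.lTensor_tmul, ← hU, ← hV]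
  have : (-(v • e) - b • α - d • β) ⊗ₜ[R] U + (u • e + a • α + c • β) ⊗ₜ[R] V =
      e ⊗ₜ[R] (-(v • U) + u • V) + α ⊗ₜ[R] (-(b • U) + a • V) +
        β ⊗ₜ[R] (-(d • U) + c • V) := by
    simp only [TensorProduct.tmul_add, TensorProduct.tmul_neg, TensorProduct.tmul_smul,
      TensorProduct.add_tmul, TensorProduct.sub_tmul, TensorProduct.neg_tmul,
      TensorProduct.smul_tmul']
    abel
  rw [this, e1, e2, e3]
  simp

/-- The kernel of `R² → (u,v)`. -/
abbrev K2 (u v : R) : Submodule R (R × R) := LinearMap.ker (piMap u v)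

lemma mem_K2 (u v r s : R) : (r, s) ∈ K2 u v ↔ r * u + s * v = 0 := by
  rw [LinearMap.mem_ker, piMap_eq_zero_iff]

/-- `Tor_2(M, R/(u,v)) ≠ 0`. -/
theorem tor_two {u v a b c d : R} (hR : GoodRing u v a b c d) (M : Type u) [AddCommGroup M]
    [Module R M] (hM : GoodModule u v a b c d M) :
    ¬ IsZero (((Tor (ModuleCat.{u} R) 2).obj (ModuleCat.of R M)).obj
      (ModuleCat.of R (R ⧸ I2 u v))) := by
  rw [tor_succ_succ_isZero_iff (ModuleCat.of R M) (Submodule.subtype (I2 u v))
    (Submodule.mkQ (I2 u v)) (LinearMap.exact_subtype_mkQ _) (Submodule.injective_subtype _)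
    (Submodule.mkQ_surjective _) 0]
  have hex : Function.Exact (Submodule.subtype (K2 u v)) (piMap u v) :=
    LinearMap.exact_subtype_ker_map _
  rw [tor_one_isZero_iff (ModuleCat.of R M) (Submodule.subtype (K2 u v)) (piMap u v) hex
    (Submodule.injective_subtype _) (piMap_surjective u v)]
  change ¬ Function.Injective (LinearMap.lTensor M (Submodule.subtype (K2 u v)))
  intro hinj
  obtain ⟨w, hw, huw, hvw⟩ := hM.soc
  set s₀ : K2 u v := ⟨(-v, u), by rw [mem_K2]; ring⟩ with hs₀
  set s₁ : K2 u v := ⟨(-b, a), by rw [mem_K2]; linear_combination hR.rel1⟩ with hs₁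
  set s₂ : K2 u v := ⟨(-d, c), by rw [mem_K2]; linear_combination hR.rel2⟩ with hs₂
  have h0 : w ⊗ₜ[R] s₀ = 0 := by
    apply hinj
    rw [map_zero, LinearMap.lTensor_tmul, hs₀]
    have : ((-v, u) : R × R) = -(v • ((1, 0) : R × R)) + u • ((0, 1) : R × R) := by
      ext <;> simp
    change w ⊗ₜ[R] ((-v, u) : R × R) = 0
    rw [this]
    simp only [TensorProduct.tmul_add, TensorProduct.tmul_neg, TensorProduct.tmul_smul]
    rw [TensorProduct.smul_tmul', TensorProduct.smul_tmul', huw, hvw]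
    simp
  apply hw
  have hspan : Submodule.span R (Set.range ![s₀, s₁, s₂]) = ⊤ := by
    rw [eq_top_iff]
    rintro ⟨⟨r, s⟩, hx⟩ -
    rw [mem_K2] at hx
    obtain ⟨e, α, β, h1, h2⟩ := hR.syz r s hx
    have : (⟨(r, s), by rwa [mem_K2]⟩ : K2 u v) = e • s₀ + α • s₁ + β • s₂ := by
      apply Subtype.ext
      simp only [hs₀, hs₁, hs₂, Submodule.coe_add, Submodule.coe_smul]
      ext
      · simp only [Prod.fst_add, Prod.smul_fst, smul_eq_mul]
        linear_combination h1
      · simp only [Prod.snd_add, Prod.smul_snd, smul_eq_mul]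
        linear_combination h2
    rw [this]
    refine add_mem (add_mem ?_ ?_) ?_
    · exact Submodule.smul_mem _ _ (Submodule.subset_span ⟨0, rfl⟩)
    · exact Submodule.smul_mem _ _ (Submodule.subset_span ⟨1, rfl⟩)
    · exact Submodule.smul_mem _ _ (Submodule.subset_span ⟨2, rfl⟩)
  have hsum : ∑ i, (![s₀, s₁, s₂] i) ⊗ₜ[R] (![w, 0, 0] i) = (0 : (K2 u v) ⊗[R] M) := by
    rw [Fin.sum_univ_three]
    simp only [Matrix.cons_val_zero, Matrix.cons_val_one, Matrix.cons_val_two,
      Matrix.head_cons, Matrix.tail_cons, TensorProduct.tmul_zero, add_zero]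
    have := congrArg (TensorProduct.comm R M (K2 u v)) h0
    simpa using this
  obtain ⟨k, A, y, hy, hA⟩ := TensorProduct.vanishesTrivially_of_sum_tmul_eq_zero R hspan hsum
  have hy0 : w = ∑ j, A 0 j • y j := hy 0
  have hy1 : 0 = ∑ j, A 1 j • y j := hy 1
  have hy2 : 0 = ∑ j, A 2 j • y j := hy 2
  have hA' : ∀ j, A 0 j • s₀ + A 1 j • s₁ + A 2 j • s₂ = 0 := by
    intro j
    have := hA j
    rw [Fin.sum_univ_three] at this
    exact this
  have hA1 : ∀ j, -(v * A 0 j) - b * A 1 j - d * A 2 j = 0 := by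
    intro j
    have := congrArg (fun x : K2 u v => (x : R × R).1) (hA' j)
    simp only [hs₀, hs₁, hs₂, Submodule.coe_add, Submodule.coe_smul, Prod.fst_add,
      Prod.smul_fst, smul_eq_mul, Submodule.coe_zero, Prod.fst_zero] at this
    linear_combination this
  have hA2 : ∀ j, u * A 0 j + a * A 1 j + c * A 2 j = 0 := by
    intro j
    have := congrArg (fun x : K2 u v => (x : R × R).2) (hA' j)
    simp only [hs₀, hs₁, hs₂, Submodule.coe_add, Submodule.coe_smul, Prod.snd_add,
      Prod.smul_snd, smul_eq_mul, Submodule.coe_zero, Prod.snd_zero] at this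
    linear_combination this
  have hex2 : ∀ j, ∃ p q p' q' : R, A 1 j = p * u + q * v ∧ A 2 j = p' * u + q' * v := by
    intro j
    obtain ⟨⟨p, q, h⟩, p', q', h'⟩ := hR.syz2 _ _ _ (hA1 j) (hA2 j)
    exact ⟨p, q, p', q', h, h'⟩
  choose p q p' q' hpq hpq' using hex2
  have hk : ∀ j, (A 0 j + p j * a + q j * b + p' j * c + q' j * d) • y j = 0 := by
    intro j
    obtain ⟨h, hh⟩ := hR.ann (A 0 j + p j * a + q j * b + p' j * c + q' j * d) (by
      have h1 := hA2 j
      rw [hpq j, hpq' j] at h1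
      linear_combination h1 - q j * hR.rel1 - q' j * hR.rel2) (by
      have h1 := hA1 j
      rw [hpq j, hpq' j] at h1
      linear_combination -h1 + p j * hR.rel1 + p' j * hR.rel2)
    rw [hh, mul_smul, hM.det, smul_zero]
  have hw' : w = -((a • (∑ j, p j • y j) + b • (∑ j, q j • y j)) +
      (c • (∑ j, p' j • y j) + d • (∑ j, q' j • y j))) := by
    rw [hy0]
    simp only [Finset.smul_sum, ← Finset.sum_add_distrib]
    rw [← Finset.sum_neg_distrib]
    apply Finset.sum_congr rfl
    intro j _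
    have := hk j
    simp only [add_smul, mul_smul] at this
    have e1 : a • p j • y j = p j • a • y j := smul_comm _ _ _
    have e2 : b • q j • y j = q j • b • y j := smul_comm _ _ _
    have e3 : c • p' j • y j = p' j • c • y j := smul_comm _ _ _
    have e4 : d • q' j • y j = q' j • d • y j := smul_comm _ _ _
    rw [e1, e2, e3, e4, eq_neg_iff_add_eq_zero, ← this]
    abel
  have hPQ : u • (∑ j, p j • y j) + v • (∑ j, q j • y j) = 0 := by
    rw [hy1]
    simp only [Finset.smul_sum, ← Finset.sum_add_distrib]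
    apply Finset.sum_congr rfl
    intro j _
    rw [hpq j, add_smul, smul_smul, smul_smul, mul_comm u, mul_comm v]
  have hPQ' : u • (∑ j, p' j • y j) + v • (∑ j, q' j • y j) = 0 := by
    rw [hy2]
    simp only [Finset.smul_sum, ← Finset.sum_add_distrib]
    apply Finset.sum_congr rfl
    intro j _
    rw [hpq' j, add_smul, smul_smul, smul_smul, mul_comm u, mul_comm v]
  obtain ⟨E, X, Y, h1, h2⟩ := hM.syz _ _ hPQ
  obtain ⟨E', X', Y', h1', h2'⟩ := hM.syz _ _ hPQ'
  rw [hw', h1, h2, h1', h2']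
  linear_combination (norm := module) hR.rel1 • E + hR.rel2 • E' - hM.det Y + hM.det X'

end Pool.Agent.Lib.MP_7385e8_ag
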