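import Mathlib
import Pool.Agent.Lib.MP_7385e8_ag.Defs

/-!
Over an artinian local ring all classes vanish in the reduced Grothendieck group with rational
coefficients, and all modules are locally free on the (empty) punctured spectrum.
-/

universe u

open TensorProduct

namespace Pool.Agent.Lib.MP_7385e8_ag

variable {R : Type u} [CommRing R]

lemma classG_exact {A B C : Type u} [AddCommGroup A] [AddCommGroup B] [AddCommGroup C]
    [Module R A] [Module R B] [Module R C] [hA : Module.Finite R A] [hB : Module.Finite R B]
    [hC : Module.Finite R C] (f : A →ₗ[R] B) (g : B →ₗ[R] C) (hf : Function.Injective f)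
    (h : Function.Exact f g) (hg : Function.Surjective g) :
    classG R B = classG R A + classG R C := by
  have hmem : (FreeAbelianGroup.of (⟨ModuleCat.of R B, hB⟩ : FGMod R) -
      FreeAbelianGroup.of (⟨ModuleCat.of R A, hA⟩ : FGMod R) -
      FreeAbelianGroup.of (⟨ModuleCat.of R C, hC⟩ : FGMod R)) ∈
      AddSubgroup.closure (exactRelations R) :=
    AddSubgroup.subset_closure ⟨_, _, _, f, g, hf, h, hg, rfl⟩
  have h0 := (QuotientAddGroup.eq_zero_iff _).2 hmem
  have h1 : classG R B - classG R A - classG R C = 0 := h0
  rw [sub_sub, sub_eq_zero] at h1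
  exact h1

lemma classG_subsingleton (A : Type u) [AddCommGroup A] [Module R A] [Module.Finite R A]
    [Subsingleton A] : classG R A = 0 := by
  have := classG_exact (R := R) (A := A) (B := A) (C := A) LinearMap.id LinearMap.id
    Function.injective_id (by
      intro x
      simp [Subsingleton.elim x 0]) Function.surjective_id
  simpa using this

lemma classG_congr {A B : Type u} [AddCommGroup A] [AddCommGroup B] [Module R A] [Module R B]
    [Module.Finite R A] [Module.Finite R B] (e : A ≃ₗ[R] B) : classG R A = classG R B := by
  have h := classG_exact (R := R) (A := A) (B := B) (C := PUnit.{u + 1}) e.toLinearMap 0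
    e.injective (by
      intro x
      constructor
      · intro _; exact e.surjective x
      · intro _; rfl) (fun x => ⟨0, Subsingleton.elim _ _⟩)
  rw [classG_subsingleton PUnit, add_zero] at h
  exact h.symm

variable [IsLocalRing R]

lemma exists_classG_eq [IsNoetherianRing R] (M : Type u) [AddCommGroup M] [Module R M]
    (hM : IsFiniteLength R M) : ∀ hfin : Module.Finite R M,
    ∃ n : ℕ, classG R M = n • classG R (R ⧸ IsLocalRing.maximalIdeal R) ∧
      (n = 0 → Subsingleton M) := by
  induction hM with
  | of_subsingleton =>
    intro hfin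
    exact ⟨0, by rw [classG_subsingleton, zero_smul], fun _ => inferInstance⟩
  | @of_simple_quotient M _ _ N _ _ ih =>
    intro hfin
    have hN : Module.Finite R N := inferInstance
    obtain ⟨n, hn, -⟩ := ih hN
    refine ⟨n + 1, ?_, fun h => absurd h (Nat.succ_ne_zero n)⟩
    have h1 := classG_exact (R := R) N.subtype N.mkQ N.injective_subtype
      (LinearMap.exact_subtype_mkQ N) N.mkQ_surjective
    obtain ⟨I, hI, ⟨e⟩⟩ := isSimpleModule_iff_quot_maximal.1 (inferInstance :
      IsSimpleModule R (M ⧸ N))
    have hI' : I = IsLocalRing.maximalIdeal R := IsLocalRing.eq_maximalIdeal hI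
    subst hI'
    rw [h1, hn, classG_congr e, succ_nsmul]

/-- Over an artinian local ring, all reduced classes are zero rationally. -/
theorem reducedClassQ_eq_zero [IsArtinianRing R] (N : Type u) [AddCommGroup N] [Module R N]
    [Module.Finite R N] : reducedClassQ R N = 0 := by
  have hfl : ∀ (M : Type u) [AddCommGroup M] [Module R M] [Module.Finite R M],
      IsFiniteLength R M := by
    intro M _ _ _
    rw [isFiniteLength_iff_isNoetherian_isArtinian]
    exact ⟨inferInstance, inferInstance⟩
  obtain ⟨n, hn, -⟩ := exists_classG_eq N (hfl N) inferInstance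
  obtain ⟨m, hm, hm'⟩ := exists_classG_eq R (hfl R) inferInstance
  have hm0 : m ≠ 0 := fun h => by
    have := hm' h
    exact not_subsingleton R this
  have h1 : m • classG R N = n • classG R R := by
    rw [hn, hm, smul_smul, smul_smul, mul_comm]
  have h2 : m • (QuotientAddGroup.mk (classG R N) : ReducedGrothendieckGroup R) = 0 := by
    have h3 : m • (QuotientAddGroup.mk (classG R N) : ReducedGrothendieckGroup R) =
      QuotientAddGroup.mk (m • classG R N) := rfl
    rw [h3, QuotientAddGroup.eq_zero_iff, h1]
    exact AddSubgroup.nsmul_mem _ (AddSubgroup.mem_zmultiples _) n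
  have h4 : (1 : ℚ) = (m : ℤ) • ((m : ℚ)⁻¹) := by
    rw [zsmul_eq_mul]
    push_cast
    rw [mul_inv_cancel₀ (Nat.cast_ne_zero.2 hm0)]
  rw [reducedClassQ, h4, TensorProduct.smul_tmul, natCast_zsmul, h2, TensorProduct.tmul_zero]

/-- Over an artinian local ring the punctured spectrum is empty. -/
theorem isLocallyFree_of_isArtinianRing [IsArtinianRing R] (M : Type u) [AddCommGroup M]
    [Module R M] : IsLocallyFreeOnPuncturedSpectrum R M := by
  refine ⟨0, fun p hp hne => ?_⟩
  exact absurd (IsLocalRing.eq_maximalIdeal (inferInstance : p.IsMaximal)) hne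

end Pool.Agent.Lib.MP_7385e8_ag
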