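import Mathlib
import Pool.Agent.Lib.MP_7385e8_ag.GoodRing

/-!
`GoodRing` for a quotient of a ring by a regular sequence `a v - b u, c v - d u`.
-/

universe u

namespace Pool.Agent.Lib.MP_7385e8_ag

/-- Regularity of a pair `(x,y)` in elementary terms: `x` is a nonzerodivisor and `y` is a
nonzerodivisor modulo `x`. -/
structure RegPair {B : Type*} [CommRing B] (x y : B) : Prop where
  left : ∀ r : B, r * x = 0 → r = 0
  right : ∀ r s : B, s * y = r * x → ∃ h : B, s = h * x

lemma RegPair.koszul {B : Type*} [CommRing B] {x y : B} (h : RegPair x y) (r s : B)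
    (hrs : r * x + s * y = 0) : ∃ e : B, r = -(y * e) ∧ s = x * e := by
  obtain ⟨e, he⟩ := h.right (-r) s (by linear_combination hrs)
  refine ⟨e, ?_, by rw [he, mul_comm]⟩
  have : (r + y * e) * x = 0 := by
    rw [he] at hrs
    linear_combination hrs
  linear_combination h.left _ this

variable {B : Type u} [CommRing B]

/-- The ideal of the quotient. -/
abbrev J2 (x y : B) : Ideal B := Ideal.span {x, y}

lemma mem_J2 {x y z : B} : z ∈ J2 x y ↔ ∃ r s : B, r * x + s * y = z :=
  Ideal.mem_span_pair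

theorem goodRing_quot (u v a b c d : B) (huv : RegPair u v)
    (hG : RegPair (a * v - b * u) (c * v - d * u)) :
    GoodRing (Ideal.Quotient.mk (J2 (a * v - b * u) (c * v - d * u)) u)
      (Ideal.Quotient.mk _ v) (Ideal.Quotient.mk _ a) (Ideal.Quotient.mk _ b)
      (Ideal.Quotient.mk _ c) (Ideal.Quotient.mk _ d) := by
  set G₁ := a * v - b * u with hG₁
  set G₂ := c * v - d * u with hG₂
  set q := Ideal.Quotient.mk (J2 G₁ G₂) with hq
  have mk0 : ∀ z : B, q z = 0 ↔ ∃ r s : B, r * G₁ + s * G₂ = z := fun z => by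
    rw [hq, Ideal.Quotient.eq_zero_iff_mem, mem_J2]
  have qG₁ : q G₁ = 0 := (mk0 _).2 ⟨1, 0, by ring⟩
  have qG₂ : q G₂ = 0 := (mk0 _).2 ⟨0, 1, by ring⟩
  have rel1 : q a * q v = q b * q u := by
    rw [← map_mul, ← map_mul, ← sub_eq_zero, ← map_sub]; exact qG₁
  have rel2 : q c * q v = q d * q u := by
    rw [← map_mul, ← map_mul, ← sub_eq_zero, ← map_sub]; exact qG₂
  refine ⟨rel1, rel2, ?_, ?_, ?_⟩
  · intro r s hrs
    obtain ⟨r, rfl⟩ := Ideal.Quotient.mk_surjective r
    obtain ⟨s, rfl⟩ := Ideal.Quotient.mk_surjective s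
    rw [← map_mul, ← map_mul, ← map_add] at hrs
    obtain ⟨α, β, h⟩ := (mk0 _).1 hrs
    obtain ⟨e, h1, h2⟩ := huv.koszul (r + b * α + d * β) (s - a * α - c * β) (by
      rw [hG₁, hG₂] at h; linear_combination -h)
    refine ⟨q e, q α, q β, ?_, ?_⟩
    · rw [← map_mul, ← map_mul, ← map_mul, ← map_neg, ← map_sub, ← map_sub]
      exact congrArg q (by linear_combination h1)
    · rw [← map_mul, ← map_mul, ← map_mul, ← map_add, ← map_add]
      exact congrArg q (by linear_combination h2)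
  · intro e α β h1 h2
    obtain ⟨e, rfl⟩ := Ideal.Quotient.mk_surjective e
    obtain ⟨α, rfl⟩ := Ideal.Quotient.mk_surjective α
    obtain ⟨β, rfl⟩ := Ideal.Quotient.mk_surjective β
    rw [← map_mul, ← map_mul, ← map_mul, ← map_neg, ← map_sub, ← map_sub] at h1
    rw [← map_mul, ← map_mul, ← map_mul, ← map_add, ← map_add] at h2
    obtain ⟨p₁, q₁, h1⟩ := (mk0 _).1 h1
    obtain ⟨p₂, q₂, h2⟩ := (mk0 _).1 h2
    obtain ⟨h, e1, e2⟩ := hG.koszul (α - p₁ * u - p₂ * v) (β - q₁ * u - q₂ * v) (by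
      linear_combination -u * h1 - v * h2)
    refine ⟨⟨q p₁, q p₂, ?_⟩, ⟨q q₁, q q₂, ?_⟩⟩
    · have : α = p₁ * u + p₂ * v - G₂ * h := by linear_combination e1
      rw [← hq, this, map_sub, map_add, map_mul, map_mul, map_mul, qG₂]
      ring
    · have : β = q₁ * u + q₂ * v + G₁ * h := by linear_combination e2
      rw [← hq, this, map_add, map_add, map_mul, map_mul, map_mul, qG₁]
      ring
  · intro e h1 h2
    obtain ⟨e, rfl⟩ := Ideal.Quotient.mk_surjective e
    rw [← map_mul] at h1 h2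
    obtain ⟨p₁, q₁, h1⟩ := (mk0 _).1 h1
    obtain ⟨p₂, q₂, h2⟩ := (mk0 _).1 h2
    obtain ⟨h, e1, e2⟩ := hG.koszul (p₁ * v - p₂ * u) (q₁ * v - q₂ * u) (by
      linear_combination v * h1 - u * h2)
    -- `p₁ v - p₂ u = - G₂ h`, `q₁ v - q₂ u = G₁ h`
    obtain ⟨g, f1, f2⟩ := huv.koszul (-(p₂ + d * h)) (p₁ + c * h) (by
      rw [hG₂] at e1; linear_combination e1)
    obtain ⟨g', f3, f4⟩ := huv.koszul (-(q₂ - b * h)) (q₁ - a * h) (by
      rw [hG₁] at e2; linear_combination e2)
    have hmain : (e - (b * c - a * d) * h - g * G₁ - g' * G₂) * u = 0 := by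
      have hp₁ : p₁ = u * g - c * h := by linear_combination f2
      have hq₁ : q₁ = u * g' + a * h := by linear_combination f4
      rw [hp₁, hq₁] at h1
      rw [hG₁, hG₂] at h1 ⊢
      linear_combination -h1
    have := huv.left _ hmain
    refine ⟨q h, ?_⟩
    have he : e = h * (b * c - a * d) + g * G₁ + g' * G₂ := by linear_combination this
    rw [he, map_add, map_add, map_mul, map_mul, map_mul, qG₁, qG₂, map_sub, map_mul, map_mul]
    ring

end Pool.Agent.Lib.MP_7385e8_ag
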