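import Mathlib

/-!
Regular sequences in a polynomial ring in six variables.
-/

universe u

open MvPolynomial RingTheory.Sequence

namespace Pool.Agent.Lib.MP_7385e8_ag

lemma mem_of_monomial_mul {σ : Type*} {K : Type*} [CommRing K] (T : Set (σ →₀ ℕ)) (e : σ →₀ ℕ)
    (he : ∀ t ∈ T, ∀ i, t i ≠ 0 → e i = 0) (x : MvPolynomial σ K)
    (h : monomial e 1 * x ∈ Ideal.span ((fun s => monomial s (1 : K)) '' T)) :
    x ∈ Ideal.span ((fun s => monomial s (1 : K)) '' T) := by
  rw [mem_ideal_span_monomial_image] at h ⊢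
  intro m hm
  have hm' : e + m ∈ (monomial e 1 * x).support := by
    rw [mem_support_iff, coeff_monomial_mul, one_mul]
    exact mem_support_iff.1 hm
  obtain ⟨t, ht, hle⟩ := h _ hm'
  refine ⟨t, ht, fun i => ?_⟩
  by_cases hti : t i = 0
  · rw [hti]; exact Nat.zero_le _
  · have := hle i
    rw [Finsupp.add_apply, he t ht i hti, zero_add] at this
    exact this

lemma weaklyRegular_iff {A : Type*} [CommRing A] (rs : List A) :
    IsWeaklyRegular A rs ↔ ∀ i (h : i < rs.length), ∀ x : A,
      rs[i] * x ∈ Ideal.ofList (rs.take i) → x ∈ Ideal.ofList (rs.take i) := by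
  rw [isWeaklyRegular_iff]
  refine forall₂_congr fun i h => ?_
  rw [isSMulRegular_quotient_iff_mem_of_smul_mem]
  simp only [smul_eq_mul, Ideal.mul_top]

variable (K : Type u) [Field K]

/-- The polynomial ring `K[x₁, z₁, x₂, z₂, u, v]`. -/
abbrev P6 := MvPolynomial (Fin 6) K

/-- `a = x₁ + v²`. -/
noncomputable def pa : P6 K := X 0 + X 5 ^ 2
/-- `b = z₁`. -/
noncomputable def pb : P6 K := X 1
/-- `c = x₂`. -/
noncomputable def pc : P6 K := X 2
/-- `d = z₂ - u²`. -/
noncomputable def pd : P6 K := X 3 - X 4 ^ 2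
/-- `u`. -/
noncomputable def pu : P6 K := X 4
/-- `v`. -/
noncomputable def pv : P6 K := X 5
/-- `G₁ = a v - b u = x₁ v - z₁ u + v³`. -/
noncomputable def G1 : P6 K := pa K * pv K - pb K * pu K
/-- `G₂ = c v - d u = x₂ v - z₂ u + u³`. -/
noncomputable def G2 : P6 K := pc K * pv K - pd K * pu K

lemma ofList_monomials (es : List (Fin 6 →₀ ℕ)) :
    Ideal.ofList (es.map fun s => (monomial s (1 : K) : P6 K)) =
      Ideal.span ((fun s => monomial s (1 : K)) '' {s | s ∈ es}) := by
  rw [Ideal.ofList]
  congr 1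
  ext x
  simp

lemma step_mem (L : List (P6 K)) (es : List (Fin 6 →₀ ℕ)) (e : Fin 6 →₀ ℕ) (g : P6 K)
    (hL : Ideal.ofList L = Ideal.ofList (es.map fun s => (monomial s (1 : K) : P6 K)))
    (hg : g - monomial e 1 ∈ Ideal.ofList L)
    (he : ∀ t ∈ es, ∀ i, t i ≠ 0 → e i = 0) (x : P6 K) (h : g * x ∈ Ideal.ofList L) :
    x ∈ Ideal.ofList L := by
  have h' : monomial e 1 * x ∈ Ideal.ofList L := by
    have : monomial e 1 * x = g * x - (g - monomial e 1) * x := by ring
    rw [this]
    exact sub_mem h (Ideal.mul_mem_right _ _ hg)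
  rw [hL, ofList_monomials] at h' ⊢
  exact mem_of_monomial_mul {s | s ∈ es} e he x h'

/-- `[x₁, z₁, x₂, z₂, u, v]` is weakly regular. -/
lemma weaklyRegular_vars :
    IsWeaklyRegular (P6 K) ([X 0, X 1, X 2, X 3, X 4, X 5] : List (P6 K)) := by
  rw [weaklyRegular_iff]
  intro i hi x hx
  simp only [List.length_cons, List.length_nil] at hi
  have key : ∀ (es : List (Fin 6)) (j : Fin 6), j ∉ es →
      ∀ x : P6 K, X j * x ∈ Ideal.ofList (es.map fun i => (X i : P6 K)) →
        x ∈ Ideal.ofList (es.map fun i => (X i : P6 K)) := by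
    intro es j hj x hx
    refine step_mem K (es.map fun i => (X i : P6 K)) (es.map fun i => Finsupp.single i 1)
      (Finsupp.single j 1) (X j) ?_ ?_ ?_ x hx
    · rw [List.map_map]; rfl
    · have : (X j : P6 K) - monomial (Finsupp.single j 1) 1 = 0 := sub_self _
      rw [this]; exact zero_mem _
    · intro t ht i hti
      obtain ⟨k, hk, rfl⟩ := List.mem_map.1 ht
      rw [Finsupp.single_apply] at hti ⊢
      have hik : k = i := by
        by_contra hne
        simp [hne] at hti
      subst hik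
      have : j ≠ k := fun h => hj (h ▸ hk)
      simp [this]
  interval_cases i
  · exact key [] 0 (by simp) x hx
  · exact key [0] 1 (by simp) x hx
  · exact key [0, 1] 2 (by simp) x hx
  · exact key [0, 1, 2] 3 (by simp) x hx
  · exact key [0, 1, 2, 3] 4 (by simp) x hx
  · exact key [0, 1, 2, 3, 4] 5 (by simp) x hx

/-- `[x₁, z₁, x₂, z₂, G₁, G₂]` is weakly regular. -/
lemma weaklyRegular_G :
    IsWeaklyRegular (P6 K) ([X 0, X 1, X 2, X 3, G1 K, G2 K] : List (P6 K)) := by
  rw [weaklyRegular_iff]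
  intro i hi x hx
  simp only [List.length_cons, List.length_nil] at hi
  have h0 := (weaklyRegular_iff _).1 (weaklyRegular_vars K)
  interval_cases i
  · exact h0 0 (by simp) x hx
  · exact h0 1 (by simp) x hx
  · exact h0 2 (by simp) x hx
  · exact h0 3 (by simp) x hx
  · have hmem : ∀ y ∈ ([X 0, X 1, X 2, X 3] : List (P6 K)),
        y ∈ Ideal.ofList ([X 0, X 1, X 2, X 3] : List (P6 K)) :=
      fun y hy => Ideal.subset_span hy
    refine step_mem K ([X 0, X 1, X 2, X 3] : List (P6 K))
      [Finsupp.single 0 1, Finsupp.single 1 1, Finsupp.single 2 1, Finsupp.single 3 1]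
      (Finsupp.single 5 3) (G1 K) rfl ?_ ?_ x hx
    · have : G1 K - monomial (Finsupp.single 5 3) 1 = X 5 * X 0 - X 4 * X 1 := by
        rw [← X_pow_eq_monomial, G1, pa, pb, pu, pv]; ring
      rw [this]
      exact sub_mem (Ideal.mul_mem_left _ _ (hmem _ (by simp)))
        (Ideal.mul_mem_left _ _ (hmem _ (by simp)))
    · intro t ht i hti
      simp only [List.mem_cons, List.not_mem_nil, or_false] at ht
      rcases ht with rfl | rfl | rfl | rfl <;>
      · rw [Finsupp.single_apply] at hti ⊢
        split_ifs at hti with h1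
        · subst h1; simp
        · exact absurd rfl hti
  · have hG : G1 K - (X 5) ^ 3 ∈ Ideal.ofList ([X 0, X 1, X 2, X 3] : List (P6 K)) := by
      have hmem : ∀ y ∈ ([X 0, X 1, X 2, X 3] : List (P6 K)),
          y ∈ Ideal.ofList ([X 0, X 1, X 2, X 3] : List (P6 K)) :=
        fun y hy => Ideal.subset_span hy
      have : G1 K - (X 5) ^ 3 = X 5 * X 0 - X 4 * X 1 := by
        rw [G1, pa, pb, pu, pv]; ring
      rw [this]
      exact sub_mem (Ideal.mul_mem_left _ _ (hmem _ (by simp)))
        (Ideal.mul_mem_left _ _ (hmem _ (by simp)))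
    have hmem : ∀ y ∈ ([X 0, X 1, X 2, X 3, G1 K] : List (P6 K)),
        y ∈ Ideal.ofList ([X 0, X 1, X 2, X 3, G1 K] : List (P6 K)) :=
      fun y hy => Ideal.subset_span hy
    have hI : Ideal.ofList ([X 0, X 1, X 2, X 3, G1 K] : List (P6 K)) =
        Ideal.ofList ([X 0, X 1, X 2, X 3, X 5 ^ 3] : List (P6 K)) := by
      have e1 : ([X 0, X 1, X 2, X 3, G1 K] : List (P6 K)) = [X 0, X 1, X 2, X 3] ++ [G1 K] := rfl
      have e2 : ([X 0, X 1, X 2, X 3, X 5 ^ 3] : List (P6 K)) =
        [X 0, X 1, X 2, X 3] ++ [X 5 ^ 3] := rfl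
      rw [e1, e2, Ideal.ofList_append, Ideal.ofList_append, Ideal.ofList_singleton,
        Ideal.ofList_singleton]
      apply le_antisymm
      · refine sup_le le_sup_left ?_
        rw [Ideal.span_singleton_le_iff_mem]
        have : G1 K = (G1 K - X 5 ^ 3) + X 5 ^ 3 := by ring
        rw [this]
        exact add_mem (Ideal.mem_sup_left hG)
          (Ideal.mem_sup_right (Ideal.mem_span_singleton_self _))
      · refine sup_le le_sup_left ?_
        rw [Ideal.span_singleton_le_iff_mem]
        have : (X 5 ^ 3 : P6 K) = G1 K - (G1 K - X 5 ^ 3) := by ring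
        rw [this]
        exact sub_mem (Ideal.mem_sup_right (Ideal.mem_span_singleton_self _))
          (Ideal.mem_sup_left hG)
    refine step_mem K ([X 0, X 1, X 2, X 3, G1 K] : List (P6 K))
      [Finsupp.single 0 1, Finsupp.single 1 1, Finsupp.single 2 1, Finsupp.single 3 1,
        Finsupp.single 5 3]
      (Finsupp.single 4 3) (G2 K) ?_ ?_ ?_ x hx
    · rw [hI, List.map_cons, List.map_cons, List.map_cons, List.map_cons, List.map_cons,
        List.map_nil, ← X_pow_eq_monomial (n := 5)]
      rfl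
    · have : G2 K - monomial (Finsupp.single 4 3) 1 = X 5 * X 2 - X 4 * X 3 := by
        rw [← X_pow_eq_monomial, G2, pc, pd, pu, pv]; ring
      rw [this]
      exact sub_mem (Ideal.mul_mem_left _ _ (hmem _ (by simp)))
        (Ideal.mul_mem_left _ _ (hmem _ (by simp)))
    · intro t ht i hti
      simp only [List.mem_cons, List.not_mem_nil, or_false] at ht
      rcases ht with rfl | rfl | rfl | rfl | rfl <;>
      · rw [Finsupp.single_apply] at hti ⊢
        split_ifs at hti with h1
        · subst h1; simp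
        · exact absurd rfl hti

end Pool.Agent.Lib.MP_7385e8_ag
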