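import Mathlib
import Pool.Agent.Lib.MP_7385e8_ag.RegSeq
import Pool.Agent.Lib.MP_7385e8_ag.QuotRing

/-!
The regular sequences in the localization of the polynomial ring at the origin.
-/

universe u

open MvPolynomial RingTheory.Sequence

namespace Pool.Agent.Lib.MP_7385e8_ag

section general

variable {S : Type u} [CommRing S] [IsLocalRing S] [IsNoetherianRing S]

lemma mem_maximalIdeal_of_isRegular {rs : List S} (h : IsRegular S rs) :
    ∀ r ∈ rs, r ∈ IsLocalRing.maximalIdeal S := by
  intro r hr
  refine IsLocalRing.le_maximalIdeal ?_ (Ideal.subset_span (s := {r | r ∈ rs}) hr)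
  intro htop
  apply h.top_ne_smul
  rw [Ideal.ofList, htop, Submodule.top_smul]

lemma isRegular_pow_middle {l r : List S} {x : S} (n : ℕ) (hn : n ≠ 0)
    (h : IsRegular S (l ++ x :: r)) : IsRegular S (l ++ x ^ n :: r) := by
  have h1 : IsRegular S ((l ++ r) ++ [x]) :=
    IsLocalRing.isRegular_of_perm h
      (List.perm_middle.trans (List.perm_append_singleton x (l ++ r)).symm)
  have hm := mem_maximalIdeal_of_isRegular h1
  have h2 : IsWeaklyRegular S ((l ++ r) ++ [x ^ n]) := by
    rw [isWeaklyRegular_append_iff]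
    have h3 := (isWeaklyRegular_append_iff S (l ++ r) [x]).1 h1.toIsWeaklyRegular
    refine ⟨h3.1, ?_⟩
    rw [isWeaklyRegular_singleton_iff] at h3 ⊢
    exact h3.2.pow n
  have h4 : IsRegular S ((l ++ r) ++ [x ^ n]) := by
    apply IsRegular.of_isWeaklyRegular_of_mem_maximalIdeal S ?_ h2
    intro y hy
    rw [List.mem_append, List.mem_singleton] at hy
    rcases hy with hy | rfl
    · exact hm y (List.mem_append_left _ hy)
    · exact Ideal.pow_mem_of_mem _ (hm x (by simp)) n (Nat.pos_of_ne_zero hn)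
  exact IsLocalRing.isRegular_of_perm h4
    ((List.perm_append_singleton (x ^ n) (l ++ r)).trans List.perm_middle.symm)

lemma isRegular_cubes {x₀ x₁ x₂ x₃ y z : S} (h : IsRegular S [x₀, x₁, x₂, x₃, y, z]) :
    IsRegular S [x₀ ^ 3, x₁ ^ 3, x₂ ^ 3, x₃ ^ 3, y, z] := by
  have h1 := isRegular_pow_middle (l := []) (r := [x₁, x₂, x₃, y, z]) 3 (by norm_num) h
  have h2 := isRegular_pow_middle (l := [x₀ ^ 3]) (r := [x₂, x₃, y, z]) 3 (by norm_num) h1
  have h3 := isRegular_pow_middle (l := [x₀ ^ 3, x₁ ^ 3]) (r := [x₃, y, z]) 3 (by norm_num) h2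
  exact isRegular_pow_middle (l := [x₀ ^ 3, x₁ ^ 3, x₂ ^ 3]) (r := [y, z]) 3 (by norm_num) h3

/-- A regular sequence `rs ++ [x, y]` gives a regular pair in `S / (rs)`. -/
lemma regPair_of_isWeaklyRegular {rs : List S} {x y : S}
    (h : IsWeaklyRegular S (rs ++ [x, y])) :
    RegPair (Ideal.Quotient.mk (Ideal.ofList rs) x) (Ideal.Quotient.mk (Ideal.ofList rs) y) := by
  have h' := (weaklyRegular_iff _).1 h
  constructor
  · intro r hr
    obtain ⟨r, rfl⟩ := Ideal.Quotient.mk_surjective r
    rw [← map_mul, Ideal.Quotient.eq_zero_iff_mem] at hr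
    rw [Ideal.Quotient.eq_zero_iff_mem]
    have := h' rs.length (by simp) r
    simp only [List.take_left, List.getElem_append_right (le_refl rs.length), Nat.sub_self,
      List.getElem_cons_zero] at this
    exact this (by rwa [mul_comm])
  · intro r s hrs
    obtain ⟨r, rfl⟩ := Ideal.Quotient.mk_surjective r
    obtain ⟨s, rfl⟩ := Ideal.Quotient.mk_surjective s
    rw [← map_mul, ← map_mul, Ideal.Quotient.eq] at hrs
    have := h' (rs.length + 1) (by simp) s
    have e1 : List.take (rs.length + 1) (rs ++ [x, y]) = rs ++ [x] := by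
      rw [List.take_append]
      simp
    have e2 : (rs ++ [x, y])[rs.length + 1]'(by simp) = y := by
      rw [List.getElem_append_right (by omega)]
      simp
    rw [e1, e2, Ideal.ofList_append, Ideal.ofList_singleton] at this
    have hmem : y * s ∈ Ideal.ofList rs ⊔ Ideal.span {x} := by
      have : y * s = (s * y - r * x) + r * x := by ring
      rw [this]
      exact add_mem (Ideal.mem_sup_left hrs)
        (Ideal.mem_sup_right (Ideal.mul_mem_left _ _ (Ideal.mem_span_singleton_self x)))
    obtain ⟨a, ha, b, hb, hab⟩ := Submodule.mem_sup.1 (this hmem)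
    obtain ⟨c, rfl⟩ := Ideal.mem_span_singleton'.1 hb
    refine ⟨Ideal.Quotient.mk _ c, ?_⟩
    rw [← map_mul, Ideal.Quotient.eq, ← hab]
    simpa using ha

end general

end Pool.Agent.Lib.MP_7385e8_ag
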