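import Mathlib
import Pool.Agent.Lib.MP_7385e8_ag.LocalReg

/-!
The module `W` of length 12, and the ring `R`.
-/

universe u

open MvPolynomial

namespace Pool.Agent.Lib.MP_7385e8_ag

variable (K : Type u) [Field K]

/-- The ideal of the relations of the ring `R`. -/
noncomputable abbrev I6 : Ideal (P6 K) :=
  Ideal.ofList ([X 0 ^ 3, X 1 ^ 3, X 2 ^ 3, X 3 ^ 3, G1 K, G2 K] : List (P6 K))

/-- The ring `R = K[x₁, z₁, x₂, z₂, u, v] / (x₁³, z₁³, x₂³, z₂³, G₁, G₂)`. -/
abbrev R6 := P6 K ⧸ I6 K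

/-- The vector space underlying the module `W`, of dimension 12. -/
abbrev W12 := (Fin 3 → K) × (Fin 3 → K) × (Fin 3 → K) × (Fin 3 → K)

variable {K}

/-- First coefficients of the three isomorphisms. -/
def tp (E : Fin 3 → K) : Fin 3 → K := ![E 0, E 2, E 2]
/-- Second coefficients of the three isomorphisms. -/
def tq (E : Fin 3 → K) : Fin 3 → K := ![E 1, E 1, E 1 + E 2]
/-- Third coefficients of the three isomorphisms. -/
def tr (E : Fin 3 → K) : Fin 3 → K := ![E 2, E 0, E 0]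

/-- The operator `∑ ξ_i x_i + ∑ ζ_i z_i` on `W`. -/
def opr (ξ ζ : Fin 3 → K) : Module.End K (W12 K) where
  toFun w := (0, fun i => ξ i * tp w.1 i + ζ i * tq w.1 i,
    fun i => ξ i * tq w.1 i + ζ i * tr w.1 i, fun i => ξ i * w.2.1 i + ζ i * w.2.2.1 i)
  map_add' w w' := by
    ext i <;> fin_cases i <;> simp [tp, tq, tr] <;> ring
  map_smul' c w := by
    ext i <;> fin_cases i <;> simp [tp, tq, tr] <;> ring

lemma opr_apply (ξ ζ : Fin 3 → K) (w : W12 K) : opr ξ ζ w =
    (0, fun i => ξ i * tp w.1 i + ζ i * tq w.1 i,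
    fun i => ξ i * tq w.1 i + ζ i * tr w.1 i, fun i => ξ i * w.2.1 i + ζ i * w.2.2.1 i) := rfl

lemma opr_comm (ξ ζ ξ' ζ' : Fin 3 → K) : opr ξ ζ * opr ξ' ζ' = opr ξ' ζ' * opr ξ ζ := by
  apply LinearMap.ext
  intro w
  rw [Module.End.mul_apply, Module.End.mul_apply]
  simp only [opr_apply]
  ext i <;> fin_cases i <;> simp [tp, tq, tr] <;> ring

variable (K)

/-- The action of the six variables `x₁, z₁, x₂, z₂, u, v`. -/
def ops : Fin 6 → Module.End K (W12 K) :=
  ![opr ![0, 1, 0] 0, opr 0 ![0, 1, 0], opr ![0, 0, 1] 0, opr 0 ![0, 0, 1],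
    opr ![1, 1, 1] 0, opr 0 ![1, 1, 1]]

lemma ops_eq (i : Fin 6) : ∃ ξ ζ, ops K i = opr ξ ζ := by
  fin_cases i
  · exact ⟨_, _, rfl⟩
  · exact ⟨_, _, rfl⟩
  · exact ⟨_, _, rfl⟩
  · exact ⟨_, _, rfl⟩
  · exact ⟨_, _, rfl⟩
  · exact ⟨_, _, rfl⟩

lemma ops_comm : ∀ a ∈ Set.range (ops K), ∀ b ∈ Set.range (ops K), a * b = b * a := by
  rintro _ ⟨i, rfl⟩ _ ⟨j, rfl⟩
  obtain ⟨ξ, ζ, h⟩ := ops_eq K i
  obtain ⟨ξ', ζ', h'⟩ := ops_eq K j
  rw [h, h', opr_comm]

/-- The commutative algebra generated by the operators. -/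
abbrev EndAlg : Subalgebra K (Module.End K (W12 K)) := Algebra.adjoin K (Set.range (ops K))

noncomputable instance commRing_EndAlg : CommRing (EndAlg K) :=
  { (inferInstance : Ring (EndAlg K)) with
    mul_comm := fun x y => by
      have := Algebra.isMulCommutative_adjoin K (ops_comm K)
      exact this.is_comm.comm x y }

/-- The action of the polynomial ring on `W`. -/
noncomputable def actP : P6 K →ₐ[K] Module.End K (W12 K) :=
  (EndAlg K).val.comp (MvPolynomial.aeval (R := K) (S₁ := EndAlg K)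
    (fun i => (⟨ops K i, Algebra.subset_adjoin ⟨i, rfl⟩⟩ : EndAlg K)))

lemma actP_X (i : Fin 6) : actP K (X i) = ops K i := by
  simp [actP]

lemma opr_mul (ξ ζ ξ' ζ' : Fin 3 → K) (w : W12 K) : opr ξ ζ (opr ξ' ζ' w) =
    (0, 0, 0, fun i => ξ i * (ξ' i * tp w.1 i + ζ' i * tq w.1 i) +
      ζ i * (ξ' i * tq w.1 i + ζ' i * tr w.1 i)) := by
  simp only [opr_apply]
  ext i <;> fin_cases i <;> simp [tp, tq, tr]

lemma opr_mul3 (ξ ζ ξ' ζ' ξ'' ζ'' : Fin 3 → K) (w : W12 K) :
    opr ξ ζ (opr ξ' ζ' (opr ξ'' ζ'' w)) = 0 := by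
  rw [opr_mul, opr_apply]
  ext i <;> fin_cases i <;> simp [tp, tq, tr]

lemma actP_X3 (i j k : Fin 6) : actP K (X i * X j * X k) = 0 := by
  rw [map_mul, map_mul, actP_X, actP_X, actP_X]
  obtain ⟨ξ, ζ, h⟩ := ops_eq K i
  obtain ⟨ξ', ζ', h'⟩ := ops_eq K j
  obtain ⟨ξ'', ζ'', h''⟩ := ops_eq K k
  rw [h, h', h'']
  apply LinearMap.ext
  intro w
  rw [Module.End.mul_apply, Module.End.mul_apply, opr_mul3]
  rfl

lemma actP_G1 : actP K (G1 K) = 0 := by
  have e : G1 K = (X 0 * X 5 - X 1 * X 4) + X 5 * X 5 * X 5 := by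
    rw [G1, pa, pb, pu, pv]; ring
  rw [e, map_add, actP_X3, add_zero, map_sub, map_mul, map_mul, actP_X, actP_X, actP_X, actP_X]
  apply LinearMap.ext
  intro w
  rw [LinearMap.sub_apply, Module.End.mul_apply, Module.End.mul_apply]
  change opr ![0, 1, 0] 0 (opr 0 ![1, 1, 1] w) - opr 0 ![0, 1, 0] (opr ![1, 1, 1] 0 w) = 0
  rw [opr_mul, opr_mul]
  ext i <;> fin_cases i <;> simp [tp, tq, tr]

lemma actP_G2 : actP K (G2 K) = 0 := by
  have e : G2 K = (X 2 * X 5 - X 3 * X 4) + X 4 * X 4 * X 4 := by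
    rw [G2, pc, pd, pu, pv]; ring
  rw [e, map_add, actP_X3, add_zero, map_sub, map_mul, map_mul, actP_X, actP_X, actP_X, actP_X]
  apply LinearMap.ext
  intro w
  rw [LinearMap.sub_apply, Module.End.mul_apply, Module.End.mul_apply]
  change opr ![0, 0, 1] 0 (opr 0 ![1, 1, 1] w) - opr 0 ![0, 0, 1] (opr ![1, 1, 1] 0 w) = 0
  rw [opr_mul, opr_mul]
  ext i <;> fin_cases i <;> simp [tp, tq, tr]

lemma actP_I6 : ∀ a ∈ I6 K, actP K a = 0 := by
  intro a ha
  have hle : I6 K ≤ RingHom.ker (actP K : P6 K →+* Module.End K (W12 K)) := by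
    rw [I6, Ideal.ofList, Ideal.span_le]
    intro x hx
    simp only [Set.mem_ofPred_eq, List.mem_cons, List.not_mem_nil, or_false] at hx
    rw [SetLike.mem_coe, RingHom.mem_ker]
    change actP K x = 0
    have e : ∀ i : Fin 6, (X i ^ 3 : P6 K) = X i * X i * X i := fun i => by ring
    rcases hx with rfl | rfl | rfl | rfl | rfl | rfl
    · rw [e, actP_X3]
    · rw [e, actP_X3]
    · rw [e, actP_X3]
    · rw [e, actP_X3]
    · exact actP_G1 K
    · exact actP_G2 K
  exact hle ha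

/-- The action of `R` on `W`. -/
noncomputable def actR : R6 K →+* Module.End K (W12 K) :=
  Ideal.Quotient.lift (I6 K) (actP K : P6 K →+* Module.End K (W12 K)) (actP_I6 K)

/-- The module `W` over `R`. -/
def WMod : Type u := W12 K

instance : AddCommGroup (WMod K) := inferInstanceAs (AddCommGroup (W12 K))
instance : Module K (WMod K) := inferInstanceAs (Module K (W12 K))
noncomputable instance moduleEndWMod : Module (Module.End K (W12 K)) (WMod K) :=
  inferInstanceAs (Module (Module.End K (W12 K)) (W12 K))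

noncomputable instance moduleWMod : Module (R6 K) (WMod K) := Module.compHom (WMod K) (actR K)

lemma smul_mk (p : P6 K) (w : WMod K) :
    (Ideal.Quotient.mk (I6 K) p) • w = actP K p w := rfl

instance : IsScalarTower K (R6 K) (WMod K) where
  smul_assoc k r w := by
    obtain ⟨p, rfl⟩ := Ideal.Quotient.mk_surjective r
    have : k • Ideal.Quotient.mk (I6 K) p = Ideal.Quotient.mk (I6 K) (k • p) := rfl
    rw [this, smul_mk, smul_mk, map_smul]
    rfl

instance finite_WMod_K : Module.Finite K (WMod K) :=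
  inferInstanceAs (Module.Finite K (W12 K))

instance finite_WMod : Module.Finite (R6 K) (WMod K) :=
  Module.Finite.of_restrictScalars_finite K (R6 K) (WMod K)

/-- Images in `R` of the elements `u, v, a, b, c, d`. -/
noncomputable abbrev ru : R6 K := Ideal.Quotient.mk (I6 K) (pu K)
/-- The image of `v`. -/
noncomputable abbrev rv : R6 K := Ideal.Quotient.mk (I6 K) (pv K)
/-- The image of `a`. -/
noncomputable abbrev ra : R6 K := Ideal.Quotient.mk (I6 K) (pa K)
/-- The image of `b`. -/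
noncomputable abbrev rb : R6 K := Ideal.Quotient.mk (I6 K) (pb K)
/-- The image of `c`. -/
noncomputable abbrev rc : R6 K := Ideal.Quotient.mk (I6 K) (pc K)
/-- The image of `d`. -/
noncomputable abbrev rd : R6 K := Ideal.Quotient.mk (I6 K) (pd K)

/-- The operator of multiplication by `u`. -/
abbrev opU : Module.End K (W12 K) := opr ![1, 1, 1] 0
/-- The operator of multiplication by `v`. -/
abbrev opV : Module.End K (W12 K) := opr 0 ![1, 1, 1]

lemma ru_smul (w : WMod K) : ru K • w = opU K w := by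
  rw [smul_mk, pu, actP_X]; rfl

lemma rv_smul (w : WMod K) : rv K • w = opV K w := by
  rw [smul_mk, pv, actP_X]; rfl

lemma ra_smul (w : WMod K) : ra K • w = opr ![0, 1, 0] 0 w + opV K (opV K w) := by
  rw [smul_mk, pa, map_add, pow_two, map_mul, actP_X, actP_X]; rfl

lemma rb_smul (w : WMod K) : rb K • w = opr 0 ![0, 1, 0] w := by
  rw [smul_mk, pb, actP_X]; rfl

lemma rc_smul (w : WMod K) : rc K • w = opr ![0, 0, 1] 0 w := by
  rw [smul_mk, pc, actP_X]; rfl

lemma rd_smul (w : WMod K) : rd K • w = opr 0 ![0, 0, 1] w - opU K (opU K w) := by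
  rw [smul_mk, pd, map_sub, pow_two, map_mul, actP_X, actP_X]; rfl

/-- The operator of multiplication by `a`. -/
abbrev opA (w : W12 K) : W12 K := opr ![0, 1, 0] 0 w + opV K (opV K w)
/-- The operator of multiplication by `b`. -/
abbrev opB (w : W12 K) : W12 K := opr 0 ![0, 1, 0] w
/-- The operator of multiplication by `c`. -/
abbrev opC (w : W12 K) : W12 K := opr ![0, 0, 1] 0 w
/-- The operator of multiplication by `d`. -/
abbrev opD (w : W12 K) : W12 K := opr 0 ![0, 0, 1] w - opU K (opU K w)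

lemma W_det (w : W12 K) : opB K (opC K w) - opA K (opD K w) = 0 := by
  simp only [map_sub, opA, opB, opC, opD, opr_apply]
  ext i <;> fin_cases i <;> simp [tp, tq, tr]

omit [Field K] in
lemma opr_ext {w w' : W12 K} (h1 : ∀ i, w.1 i = w'.1 i) (h2 : ∀ i, w.2.1 i = w'.2.1 i)
    (h3 : ∀ i, w.2.2.1 i = w'.2.2.1 i) (h4 : ∀ i, w.2.2.2 i = w'.2.2.2 i) : w = w' := by
  ext i
  · exact h1 i
  · exact h2 i
  · exact h3 i
  · exact h4 i

lemma W_syz (m₁ m₂ : W12 K) (h : opU K m₁ + opV K m₂ = 0) :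
    ∃ e α β : W12 K, m₁ = -(opV K e) - opB K α - opD K β ∧
      m₂ = opU K e + opA K α + opC K β := by
  obtain ⟨E₁, F₁, G₁, H₁⟩ := m₁
  obtain ⟨E₂, F₂, G₂, H₂⟩ := m₂
  have hF : ∀ i, tp E₁ i + tq E₂ i = 0 := by
    intro i
    have := congrFun (congrArg (fun x : W12 K => x.2.1) h) i
    fin_cases i <;> simpa [opr_apply] using this
  have hG : ∀ i, tq E₁ i + tr E₂ i = 0 := by
    intro i
    have := congrFun (congrArg (fun x : W12 K => x.2.2.1) h) i
    fin_cases i <;> simpa [opr_apply] using this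
  have hH : ∀ i, F₁ i + G₂ i = 0 := by
    intro i
    have := congrFun (congrArg (fun x : W12 K => x.2.2.2) h) i
    fin_cases i <;> simpa [opr_apply] using this
  have f0 : E₁ 0 + E₂ 1 = 0 := hF 0
  have f1 : E₁ 2 + E₂ 1 = 0 := hF 1
  have f2 : E₁ 2 + (E₂ 1 + E₂ 2) = 0 := hF 2
  have g0 : E₁ 1 + E₂ 2 = 0 := hG 0
  have g1 : E₁ 1 + E₂ 0 = 0 := hG 1
  have g2 : (E₁ 1 + E₁ 2) + E₂ 0 = 0 := hG 2
  have a1 : E₂ 2 = 0 := by linear_combination f2 - f1
  have a2 : E₁ 1 = 0 := by linear_combination g0 - a1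
  have a3 : E₂ 0 = 0 := by linear_combination g1 - a2
  have a4 : E₁ 2 = 0 := by linear_combination g2 - g1
  have a5 : E₂ 1 = 0 := by linear_combination f1 - a4
  have a6 : E₁ 0 = 0 := by linear_combination f0 - a5
  have h0 := hH 0
  have h1 := hH 1
  have h2 := hH 2
  set Ee : Fin 3 → K := ![F₂ 0, G₂ 0, -G₁ 0] with hEe
  set Eα : Fin 3 → K := ![-G₁ 1 - F₂ 0, G₂ 1 - G₂ 0, F₂ 1 + G₁ 0] with hEα
  set Eβ : Fin 3 → K := ![-G₁ 2 - F₂ 0, G₂ 2 - F₂ 2 - G₂ 0, F₂ 2 + G₁ 0] with hEβ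
  refine ⟨(Ee, fun i => H₂ i - tr Eα i, fun i => -H₁ i + tp Eβ i, 0), (Eα, 0, 0, 0),
    (Eβ, 0, 0, 0), ?_, ?_⟩
  · apply opr_ext
    · intro i
      fin_cases i <;> simp [opr_apply, a2, a4, a6]
    · intro i
      fin_cases i <;> simp [opr_apply, tp, tq, tr, hEe, hEα, hEβ]
      · linear_combination h0
      · linear_combination h1
      · linear_combination h2
    · intro i
      fin_cases i <;> simp [opr_apply, tp, tq, tr, hEe, hEα, hEβ]
      all_goals ring
    · intro i
      fin_cases i <;> simp [opr_apply, tp, tq, tr, hEe, hEα, hEβ]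
  · apply opr_ext
    · intro i
      fin_cases i <;> simp [opr_apply, a1, a3, a5]
    · intro i
      fin_cases i <;> simp [opr_apply, tp, tq, tr, hEe, hEα, hEβ]
    · intro i
      fin_cases i <;> simp [opr_apply, tp, tq, tr, hEe, hEα, hEβ]
      all_goals ring
    · intro i
      fin_cases i <;> simp [opr_apply, tp, tq, tr, hEe, hEα, hEβ]

/-- The element of the socle of `W` used in the proof. -/
def socW : W12 K := (0, 0, 0, ![1, 0, 0])

lemma socW_ne : socW K ≠ 0 := by
  intro h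
  have := congrFun (congrArg (fun x : W12 K => x.2.2.2) h) 0
  simp [socW] at this

lemma opU_socW : opU K (socW K) = 0 := by
  apply opr_ext <;> intro i <;> fin_cases i <;> simp [opr_apply, socW, tp, tq, tr]

lemma opV_socW : opV K (socW K) = 0 := by
  apply opr_ext <;> intro i <;> fin_cases i <;> simp [opr_apply, socW, tp, tq, tr]

/-- The element of the socle of `W`, in the module `W`. -/
def socM : WMod K := socW K

theorem goodModule_WMod :
    GoodModule (ru K) (rv K) (ra K) (rb K) (rc K) (rd K) (WMod K) where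
  det := by
    intro m
    rw [sub_smul, mul_smul, mul_smul, rb_smul, rc_smul, ra_smul, rd_smul]
    exact W_det K m
  syz := by
    intro m₁ m₂ h
    rw [ru_smul, rv_smul] at h
    have key : ∀ e α β : WMod K, (m₁ : WMod K) = -(rv K • e) - rb K • α - rd K • β ↔
        (m₁ : W12 K) = -(opV K e) - opB K α - opD K β := by
      intro e α β
      rw [rv_smul, rb_smul, rd_smul]
      exact Iff.rfl
    have key' : ∀ e α β : WMod K, (m₂ : WMod K) = ru K • e + ra K • α + rc K • β ↔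
        (m₂ : W12 K) = opU K e + opA K α + opC K β := by
      intro e α β
      rw [ru_smul, ra_smul, rc_smul]
      exact Iff.rfl
    obtain ⟨e, α, β, h1, h2⟩ := W_syz K m₁ m₂ h
    exact ⟨e, α, β, (key e α β).2 h1, (key' e α β).2 h2⟩
  soc := by
    refine ⟨socM K, socW_ne K, ?_, ?_⟩
    · rw [ru_smul]; exact opU_socW K
    · rw [rv_smul]; exact opV_socW K

end Pool.Agent.Lib.MP_7385e8_ag
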