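import Mathlib
import Pool.Agent.Lib.MP_7385e8_ag.ModW

/-!
The ring `R = K[x₁, z₁, x₂, z₂, u, v] / (x₁³, z₁³, x₂³, z₂³, G₁, G₂)` is an artinian local
complete intersection.
-/

universe u

open MvPolynomial RingTheory.Sequence

namespace Pool.Agent.Lib.MP_7385e8_ag

variable (K : Type u) [Field K]

lemma mkX_cube (i : Fin 6) (hi : (i : ℕ) < 4) :
    (Ideal.Quotient.mk (I6 K) (X i)) ^ 3 = 0 := by
  rw [← map_pow, Ideal.Quotient.eq_zero_iff_mem]
  apply Ideal.subset_span
  change (X i ^ 3 : P6 K) ∈ ([X 0 ^ 3, X 1 ^ 3, X 2 ^ 3, X 3 ^ 3, G1 K, G2 K] : List (P6 K))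
  have : i = 0 ∨ i = 1 ∨ i = 2 ∨ i = 3 := by omega
  rcases this with rfl | rfl | rfl | rfl <;> simp

lemma mkX_nilpotent (i : Fin 6) : IsNilpotent (Ideal.Quotient.mk (I6 K) (X i)) := by
  have h0 := (⟨3, mkX_cube K 0 (by norm_num)⟩ : IsNilpotent (Ideal.Quotient.mk (I6 K) (X 0)))
  have h1 := (⟨3, mkX_cube K 1 (by norm_num)⟩ : IsNilpotent (Ideal.Quotient.mk (I6 K) (X 1)))
  have h2 := (⟨3, mkX_cube K 2 (by norm_num)⟩ : IsNilpotent (Ideal.Quotient.mk (I6 K) (X 2)))
  have h3 := (⟨3, mkX_cube K 3 (by norm_num)⟩ : IsNilpotent (Ideal.Quotient.mk (I6 K) (X 3)))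
  have hG1 : Ideal.Quotient.mk (I6 K) (G1 K) = 0 := by
    rw [Ideal.Quotient.eq_zero_iff_mem]
    apply Ideal.subset_span
    change (G1 K : P6 K) ∈ ([X 0 ^ 3, X 1 ^ 3, X 2 ^ 3, X 3 ^ 3, G1 K, G2 K] : List (P6 K))
    simp
  have hG2 : Ideal.Quotient.mk (I6 K) (G2 K) = 0 := by
    rw [Ideal.Quotient.eq_zero_iff_mem]
    apply Ideal.subset_span
    change (G2 K : P6 K) ∈ ([X 0 ^ 3, X 1 ^ 3, X 2 ^ 3, X 3 ^ 3, G1 K, G2 K] : List (P6 K))
    simp
  have h5 : IsNilpotent (Ideal.Quotient.mk (I6 K) (X 5)) := by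
    rw [← mem_nilradical] at *
    have : (Ideal.Quotient.mk (I6 K) (X 5)) ^ 3 ∈ nilradical (R6 K) := by
      have e : (X 5 : P6 K) ^ 3 = G1 K - X 5 * X 0 + X 4 * X 1 := by
        rw [G1, pa, pb, pu, pv]; ring
      rw [← map_pow, e, map_add, map_sub, hG1, map_mul, map_mul]
      exact add_mem (sub_mem (zero_mem _) (Ideal.mul_mem_left _ _ h0))
        (Ideal.mul_mem_left _ _ h1)
    rw [mem_nilradical] at this ⊢
    exact IsNilpotent.of_pow this
  have h4 : IsNilpotent (Ideal.Quotient.mk (I6 K) (X 4)) := by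
    have : (Ideal.Quotient.mk (I6 K) (X 4)) ^ 3 ∈ nilradical (R6 K) := by
      have e : (X 4 : P6 K) ^ 3 = G2 K - X 5 * X 2 + X 4 * X 3 := by
        rw [G2, pc, pd, pu, pv]; ring
      rw [← map_pow, e, map_add, map_sub, hG2, map_mul, map_mul]
      exact add_mem (sub_mem (zero_mem _) (Ideal.mul_mem_left _ _ h2))
        (Ideal.mul_mem_left _ _ h3)
    rw [mem_nilradical] at this
    exact IsNilpotent.of_pow this
  fin_cases i
  · exact h0
  · exact h1
  · exact h2
  · exact h3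
  · exact h4
  · exact h5

/-- Polynomials without constant term are nilpotent in `R`. -/
lemma mk_nilpotent (p : P6 K) (hp : constantCoeff p = 0) :
    IsNilpotent (Ideal.Quotient.mk (I6 K) p) := by
  rw [← mem_nilradical]
  have h1 : p ∈ idealOfVars (Fin 6) K := by
    rw [← pow_one (idealOfVars (Fin 6) K), mem_pow_idealOfVars_iff']
    intro x hx
    have : x = 0 := by
      rw [Nat.lt_one_iff] at hx
      exact (Finsupp.degree_eq_zero_iff x).1 hx
    rw [this]
    exact hp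
  have h2 : idealOfVars (Fin 6) K ≤ (nilradical (R6 K)).comap (Ideal.Quotient.mk (I6 K)) := by
    rw [idealOfVars, Ideal.span_le]
    rintro _ ⟨i, rfl⟩
    exact mkX_nilpotent K i
  exact h2 h1

/-- Polynomials with nonzero constant term are units in `R`. -/
lemma mk_isUnit (p : P6 K) (hp : constantCoeff p ≠ 0) :
    IsUnit (Ideal.Quotient.mk (I6 K) p) := by
  have h1 : IsNilpotent (Ideal.Quotient.mk (I6 K) (p - C (constantCoeff p))) :=
    mk_nilpotent K _ (by simp)
  have h2 : IsUnit (Ideal.Quotient.mk (I6 K) (C (constantCoeff p))) :=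
    ((IsUnit.mk0 _ hp).map C).map _
  have h3 : Ideal.Quotient.mk (I6 K) p = Ideal.Quotient.mk (I6 K) (p - C (constantCoeff p)) +
      Ideal.Quotient.mk (I6 K) (C (constantCoeff p)) := by
    rw [← map_add]; congr 1; ring
  rw [h3, add_comm]
  exact h1.isUnit_add_left_of_commute h2 (Commute.all _ _)

lemma constantCoeff_I6 (p : P6 K) (hp : p ∈ I6 K) : constantCoeff p = 0 := by
  have hle : I6 K ≤ RingHom.ker (constantCoeff : P6 K →+* K) := by
    rw [I6, Ideal.ofList, Ideal.span_le]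
    intro x hx
    simp only [Set.mem_ofPred_eq, List.mem_cons, List.not_mem_nil, or_false] at hx
    rw [SetLike.mem_coe, RingHom.mem_ker]
    rcases hx with rfl | rfl | rfl | rfl | rfl | rfl <;>
      simp [G1, G2, pa, pb, pc, pd, pu, pv]
  exact hle hp

/-- The augmentation `R → K`. -/
noncomputable def augR : R6 K →+* K :=
  Ideal.Quotient.lift (I6 K) constantCoeff (constantCoeff_I6 K)

lemma augR_mk (p : P6 K) : augR K (Ideal.Quotient.mk (I6 K) p) = constantCoeff p := rfl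

instance nontrivial_R6 : Nontrivial (R6 K) := (augR K).domain_nontrivial

lemma isUnit_iff_augR (x : R6 K) : IsUnit x ↔ augR K x ≠ 0 := by
  constructor
  · intro h
    exact (h.map (augR K)).ne_zero
  · intro h
    obtain ⟨p, rfl⟩ := Ideal.Quotient.mk_surjective x
    exact mk_isUnit K p h

instance isLocalRing_R6 : IsLocalRing (R6 K) := by
  apply IsLocalRing.of_nonunits_add
  intro a b ha hb
  rw [mem_nonunits_iff, isUnit_iff_augR, not_not] at ha hb ⊢
  rw [map_add, ha, hb, add_zero]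

lemma mem_maximalIdeal_iff (x : R6 K) : x ∈ IsLocalRing.maximalIdeal (R6 K) ↔ augR K x = 0 := by
  rw [IsLocalRing.mem_maximalIdeal, mem_nonunits_iff, isUnit_iff_augR, not_not]

instance isNoetherianRing_R6 : IsNoetherianRing (R6 K) := inferInstance

instance isArtinianRing_R6 : IsArtinianRing (R6 K) := by
  rw [isArtinianRing_iff_isNilpotent_maximalIdeal]
  have hle : IsLocalRing.maximalIdeal (R6 K) ≤ nilradical (R6 K) := by
    intro x hx
    rw [mem_maximalIdeal_iff] at hx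
    obtain ⟨p, rfl⟩ := Ideal.Quotient.mk_surjective x
    exact mk_nilpotent K p hx
  obtain ⟨n, hn⟩ := IsNoetherianRing.isNilpotent_nilradical (R6 K)
  refine ⟨n, ?_⟩
  have : IsLocalRing.maximalIdeal (R6 K) ^ n ≤ nilradical (R6 K) ^ n := Ideal.pow_right_mono hle n
  rw [hn] at this
  exact le_bot_iff.1 this

/-- The origin of affine space. -/
noncomputable abbrev orig : Ideal (P6 K) := RingHom.ker (constantCoeff : P6 K →+* K)

instance isPrime_orig : (orig K).IsPrime := RingHom.ker_isPrime _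

/-- The regular local ring `S`: the localization of the polynomial ring at the origin. -/
abbrev S6 := Localization.AtPrime (orig K)

instance isRegularLocalRing_S6 : IsRegularLocalRing (S6 K) :=
  IsRegularRing.isRegularLocalRing_localization (R := P6 K) (orig K)

/-- The six relations in `S`. -/
noncomputable abbrev rels : List (S6 K) :=
  [algebraMap (P6 K) (S6 K) (X 0) ^ 3, algebraMap (P6 K) (S6 K) (X 1) ^ 3,
    algebraMap (P6 K) (S6 K) (X 2) ^ 3, algebraMap (P6 K) (S6 K) (X 3) ^ 3,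
    algebraMap (P6 K) (S6 K) (G1 K), algebraMap (P6 K) (S6 K) (G2 K)]

lemma mem_orig_of {p : P6 K} (h : constantCoeff p = 0) : p ∈ orig K := h

lemma isRegular_rels : IsRegular (S6 K) (rels K) := by
  apply isRegular_cubes
  refine (weaklyRegular_G K).isRegular_of_isLocalization_of_mem (S6 K) (orig K) ?_
  intro r hr
  simp only [List.mem_cons, List.not_mem_nil, or_false] at hr
  apply mem_orig_of
  rcases hr with rfl | rfl | rfl | rfl | rfl | rfl <;>
    simp [G1, G2, pa, pb, pc, pd, pu, pv]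

lemma isRegular_vars : IsRegular (S6 K)
    [algebraMap (P6 K) (S6 K) (X 0) ^ 3, algebraMap (P6 K) (S6 K) (X 1) ^ 3,
    algebraMap (P6 K) (S6 K) (X 2) ^ 3, algebraMap (P6 K) (S6 K) (X 3) ^ 3,
    algebraMap (P6 K) (S6 K) (X 4), algebraMap (P6 K) (S6 K) (X 5)] := by
  apply isRegular_cubes
  refine (weaklyRegular_vars K).isRegular_of_isLocalization_of_mem (S6 K) (orig K) ?_
  intro r hr
  simp only [List.mem_cons, List.not_mem_nil, or_false] at hr
  apply mem_orig_of
  rcases hr with rfl | rfl | rfl | rfl | rfl | rfl <;> simp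

lemma rels_eq : Ideal.ofList (rels K) = (I6 K).map (algebraMap (P6 K) (S6 K)) := by
  rw [I6, Ideal.map_ofList]
  simp only [List.map_cons, List.map_nil, map_pow]

/-- The map `S → R`. -/
noncomputable def sToR : S6 K →+* R6 K :=
  IsLocalization.lift (M := (orig K).primeCompl) (g := Ideal.Quotient.mk (I6 K))
    (fun y => mk_isUnit K y.1 (fun h => y.2 h))

lemma sToR_algebraMap (p : P6 K) : sToR K (algebraMap (P6 K) (S6 K) p) =
    Ideal.Quotient.mk (I6 K) p := IsLocalization.lift_eq _ _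

lemma sToR_surjective : Function.Surjective (sToR K) := by
  intro x
  obtain ⟨p, rfl⟩ := Ideal.Quotient.mk_surjective x
  exact ⟨algebraMap (P6 K) (S6 K) p, sToR_algebraMap K p⟩

lemma ker_sToR : RingHom.ker (sToR K) = Ideal.ofList (rels K) := by
  rw [rels_eq]
  apply le_antisymm
  · intro x hx
    obtain ⟨p, s, rfl⟩ := IsLocalization.exists_mk'_eq (orig K).primeCompl x
    rw [RingHom.mem_ker, sToR, IsLocalization.lift_mk'_spec, mul_zero,
      Ideal.Quotient.eq_zero_iff_mem] at hx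
    rw [IsLocalization.mk'_eq_mul_mk'_one]
    exact Ideal.mul_mem_right _ _ (Ideal.mem_map_of_mem _ hx)
  · rw [Ideal.map_le_iff_le_comap]
    intro p hp
    rw [Ideal.mem_comap, RingHom.mem_ker, sToR_algebraMap, Ideal.Quotient.eq_zero_iff_mem]
    exact hp

/-- `S / (relations) ≃ R`. -/
noncomputable def quotEquiv : (S6 K ⧸ Ideal.ofList (rels K)) ≃+* R6 K :=
  (Ideal.quotEquivOfEq (ker_sToR K).symm).trans
    (RingHom.quotientKerEquivOfSurjective (sToR_surjective K))

lemma quotEquiv_mk (p : P6 K) :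
    quotEquiv K (Ideal.Quotient.mk _ (algebraMap (P6 K) (S6 K) p)) =
      Ideal.Quotient.mk (I6 K) p := sToR_algebraMap K p

lemma GoodRing.map {R R' : Type*} [CommRing R] [CommRing R'] (e : R ≃+* R')
    {u v a b c d : R} (h : GoodRing u v a b c d) :
    GoodRing (e u) (e v) (e a) (e b) (e c) (e d) where
  rel1 := by rw [← map_mul, ← map_mul, h.rel1]
  rel2 := by rw [← map_mul, ← map_mul, h.rel2]
  syz := by
    intro r s hrs
    obtain ⟨r, rfl⟩ := e.surjective r
    obtain ⟨s, rfl⟩ := e.surjective s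
    rw [← map_mul, ← map_mul, ← map_add, EmbeddingLike.map_eq_zero_iff] at hrs
    obtain ⟨x, α, β, h1, h2⟩ := h.syz r s hrs
    refine ⟨e x, e α, e β, ?_, ?_⟩
    · rw [h1]; simp only [map_sub, map_neg, map_mul]
    · rw [h2]; simp only [map_add, map_mul]
  syz2 := by
    intro x α β h1 h2
    obtain ⟨x, rfl⟩ := e.surjective x
    obtain ⟨α, rfl⟩ := e.surjective α
    obtain ⟨β, rfl⟩ := e.surjective β
    rw [← map_mul, ← map_mul, ← map_mul, ← map_neg, ← map_sub, ← map_sub,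
      EmbeddingLike.map_eq_zero_iff] at h1
    rw [← map_mul, ← map_mul, ← map_mul, ← map_add, ← map_add,
      EmbeddingLike.map_eq_zero_iff] at h2
    obtain ⟨⟨p, q, h3⟩, p', q', h4⟩ := h.syz2 x α β h1 h2
    refine ⟨⟨e p, e q, ?_⟩, e p', e q', ?_⟩
    · rw [h3]; simp only [map_add, map_mul]
    · rw [h4]; simp only [map_add, map_mul]
  ann := by
    intro x h1 h2
    obtain ⟨x, rfl⟩ := e.surjective x
    rw [← map_mul, EmbeddingLike.map_eq_zero_iff] at h1 h2
    obtain ⟨y, hy⟩ := h.ann x h1 h2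
    refine ⟨e y, ?_⟩
    rw [hy]; simp only [map_sub, map_mul]

/-- The cubes. -/
noncomputable abbrev cubes : List (S6 K) :=
  [algebraMap (P6 K) (S6 K) (X 0) ^ 3, algebraMap (P6 K) (S6 K) (X 1) ^ 3,
    algebraMap (P6 K) (S6 K) (X 2) ^ 3, algebraMap (P6 K) (S6 K) (X 3) ^ 3]

/-- The ring `B = S / (x₁³, z₁³, x₂³, z₂³)`. -/
abbrev B6 := S6 K ⧸ Ideal.ofList (cubes K)

/-- The map `P → B`. -/
noncomputable def pToB : P6 K →+* B6 K :=
  (Ideal.Quotient.mk (Ideal.ofList (cubes K))).comp (algebraMap (P6 K) (S6 K))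

lemma regPair_uv : RegPair (pToB K (X 4)) (pToB K (X 5)) :=
  regPair_of_isWeaklyRegular (rs := cubes K) (isRegular_vars K).toIsWeaklyRegular

lemma regPair_G : RegPair (pToB K (G1 K)) (pToB K (G2 K)) :=
  regPair_of_isWeaklyRegular (rs := cubes K) (isRegular_rels K).toIsWeaklyRegular

lemma goodRing_B : GoodRing
    (Ideal.Quotient.mk (J2 (pToB K (G1 K)) (pToB K (G2 K))) (pToB K (pu K)))
    (Ideal.Quotient.mk _ (pToB K (pv K))) (Ideal.Quotient.mk _ (pToB K (pa K)))
    (Ideal.Quotient.mk _ (pToB K (pb K))) (Ideal.Quotient.mk _ (pToB K (pc K)))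
    (Ideal.Quotient.mk _ (pToB K (pd K))) := by
  have h := goodRing_quot (pToB K (pu K)) (pToB K (pv K)) (pToB K (pa K)) (pToB K (pb K))
    (pToB K (pc K)) (pToB K (pd K)) (regPair_uv K) (by
      rw [← map_mul, ← map_mul, ← map_mul, ← map_mul, ← map_sub, ← map_sub]
      exact regPair_G K)
  rw [← map_mul, ← map_mul, ← map_mul, ← map_mul, ← map_sub, ← map_sub] at h
  exact h

section dq

variable {S : Type u} [CommRing S]

lemma J2_eq_map (I : Ideal S) (g₁ g₂ : S) :
    J2 (Ideal.Quotient.mk I g₁) (Ideal.Quotient.mk I g₂) =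
    (Ideal.ofList [g₁, g₂]).map (Ideal.Quotient.mk I) := by
  rw [Ideal.map_ofList]
  simp only [List.map_cons, List.map_nil, J2, Ideal.ofList]
  congr 1
  ext x
  simp

/-- Iterated quotients. -/
noncomputable def dq (I : Ideal S) (g₁ g₂ : S) :
    ((S ⧸ I) ⧸ J2 (Ideal.Quotient.mk I g₁) (Ideal.Quotient.mk I g₂)) ≃+*
      S ⧸ (I ⊔ Ideal.ofList [g₁, g₂]) :=
  (Ideal.quotEquivOfEq (J2_eq_map I g₁ g₂)).trans (DoubleQuot.quotQuotEquivQuotSup _ _)

lemma dq_mk (I : Ideal S) (g₁ g₂ : S) (x : S) :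
    dq I g₁ g₂ (Ideal.Quotient.mk _ (Ideal.Quotient.mk I x)) = Ideal.Quotient.mk _ x := rfl

end dq

lemma sup_eq_rels : Ideal.ofList (cubes K) ⊔
    (Ideal.ofList ([algebraMap (P6 K) (S6 K) (G1 K), algebraMap (P6 K) (S6 K) (G2 K)] :
      List (S6 K))) = Ideal.ofList (rels K) := by
  rw [← Ideal.ofList_append]
  rfl

/-- The isomorphism `B / (G₁, G₂) ≃ R`. -/
noncomputable def bEquiv : (B6 K ⧸ J2 (pToB K (G1 K)) (pToB K (G2 K))) ≃+* R6 K :=
  (dq (Ideal.ofList (cubes K)) (algebraMap (P6 K) (S6 K) (G1 K))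
    (algebraMap (P6 K) (S6 K) (G2 K))).trans
    ((Ideal.quotEquivOfEq (sup_eq_rels K)).trans (quotEquiv K))

lemma bEquiv_mk (p : P6 K) :
    bEquiv K (Ideal.Quotient.mk _ (pToB K p)) = Ideal.Quotient.mk (I6 K) p :=
  quotEquiv_mk K p

/-- `R` satisfies the abstract hypotheses on its ideal `(u,v)`. -/
theorem goodRing_R : GoodRing (ru K) (rv K) (ra K) (rb K) (rc K) (rd K) := by
  have h := (goodRing_B K).map (bEquiv K)
  simpa only [bEquiv_mk] using h

/-- `Tor_1(W, R/(u,v)) = 0`. -/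
theorem tor_one_W : CategoryTheory.Limits.IsZero
    (((CategoryTheory.Tor (ModuleCat.{u} (R6 K)) 1).obj (ModuleCat.of (R6 K) (WMod K))).obj
      (ModuleCat.of (R6 K) (R6 K ⧸ I2 (ru K) (rv K)))) :=
  tor_one (goodRing_R K) (WMod K) (goodModule_WMod K)

/-- `Tor_2(W, R/(u,v)) ≠ 0`. -/
theorem tor_two_W : ¬ CategoryTheory.Limits.IsZero
    (((CategoryTheory.Tor (ModuleCat.{u} (R6 K)) 2).obj (ModuleCat.of (R6 K) (WMod K))).obj
      (ModuleCat.of (R6 K) (R6 K ⧸ I2 (ru K) (rv K)))) :=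
  tor_two (goodRing_R K) (WMod K) (goodModule_WMod K)

end Pool.Agent.Lib.MP_7385e8_ag
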